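import Mathlib

/-!
# Binary-query information complexity of convex optimization

A shallow cut ellipsoid method in which each normal vector is only known up to a coarse rounding in
the metric of the current ellipsoid uses `O(d log d)` binary queries in each iteration and
`O(d ^ 2 log)` iterations, and it never needs the function values. Hence the information complexity
under the general binary oracle is `O(d ^ 3 log d * log)` for every complete first-order chart,
which contradicts a lower bound of order `d ^ 2 log ^ 2`.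
-/

set_option autoImplicit false

namespace Pool.Agent.Results.MP_a8335c_lc.BinaryOracle

open Set

/-- The space `ℝ^d` with its Euclidean inner product. -/
abbrev E (d : ℕ) := EuclideanSpace ℝ (Fin d)

/-! ### The shallow cut ellipsoid step -/

/-- depth parameter -/
noncomputable def gam (d : ℕ) : ℝ := 1 / (16 * d)

/-- net parameter -/
noncomputable def del (d : ℕ) : ℝ := gam d / 2

/-- `1 / α ^ 2` -/
noncomputable def kap (d : ℕ) : ℝ := 1 - (2 * gam d / (1 - gam d)) ^ 2

/-- stretching factor -/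
noncomputable def alp (d : ℕ) : ℝ := (Real.sqrt (kap d))⁻¹

/-- volume ratio -/
noncomputable def theta (d : ℕ) : ℝ := alp d ^ (d - 1) * (1 - gam d)

theorem gam_pos {d : ℕ} (hd : 1 ≤ d) : 0 < gam d := by
  have : (1 : ℝ) ≤ d := by exact_mod_cast hd
  unfold gam; positivity

theorem gam_le {d : ℕ} (hd : 1 ≤ d) : gam d ≤ 1 / 16 := by
  have : (1 : ℝ) ≤ d := by exact_mod_cast hd
  unfold gam
  rw [div_le_div_iff₀ (by positivity) (by norm_num)]
  linarith

theorem d_mul_gam {d : ℕ} (hd : 1 ≤ d) : (d : ℝ) * gam d = 1 / 16 := by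
  have : (1 : ℝ) ≤ d := by exact_mod_cast hd
  unfold gam
  field_simp

theorem del_pos {d : ℕ} (hd : 1 ≤ d) : 0 < del d := by
  unfold del; have := gam_pos hd; linarith

/-- the ratio `r = 2 γ / (1 - γ)` is small -/
theorem ratio_sq_le {d : ℕ} (hd : 1 ≤ d) :
    (2 * gam d / (1 - gam d)) ^ 2 ≤ 5 * gam d ^ 2 := by
  have h0 := gam_pos hd
  have h1 := gam_le hd
  have h2 : 0 < 1 - gam d := by linarith
  rw [div_pow, div_le_iff₀ (by positivity)]
  have h3 : (15 / 16 : ℝ) ^ 2 ≤ (1 - gam d) ^ 2 := by
    apply pow_le_pow_left₀ (by norm_num)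
    linarith
  nlinarith [sq_nonneg (gam d)]

theorem kap_bounds {d : ℕ} (hd : 1 ≤ d) : 0 < kap d ∧ kap d ≤ 1 ∧ 1 - 5 * gam d ^ 2 ≤ kap d := by
  have h0 := gam_pos hd
  have h1 := gam_le hd
  have h2 := ratio_sq_le hd
  refine ⟨?_, ?_, ?_⟩
  · unfold kap; nlinarith
  · unfold kap; nlinarith [sq_nonneg (2 * gam d / (1 - gam d))]
  · unfold kap; linarith

theorem alp_pos {d : ℕ} (hd : 1 ≤ d) : 0 < alp d := by
  unfold alp
  exact inv_pos.2 (Real.sqrt_pos.2 (kap_bounds hd).1)

theorem alp_sq {d : ℕ} (hd : 1 ≤ d) : (alp d)⁻¹ ^ 2 = kap d := by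
  unfold alp
  rw [inv_inv, Real.sq_sqrt (kap_bounds hd).1.le]

theorem theta_pos {d : ℕ} (hd : 1 ≤ d) : 0 < theta d := by
  unfold theta
  have := alp_pos hd
  have := gam_le hd
  apply mul_pos (by positivity)
  linarith

theorem theta_le {d : ℕ} (hd : 1 ≤ d) : theta d ≤ 1 - gam d / 2 := by
  have h0 := gam_pos hd
  have h1 := gam_le hd
  have hk := kap_bounds hd
  have ha := alp_pos hd
  have hdg := d_mul_gam hd
  have e1 : (theta d) ^ 2 * (kap d) ^ (d - 1) = (1 - gam d) ^ 2 := by
    unfold theta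
    rw [← alp_sq hd]
    have : alp d ≠ 0 := ha.ne'
    have h3 : (alp d ^ (d - 1)) ^ 2 * ((alp d)⁻¹ ^ 2) ^ (d - 1) = 1 := by
      rw [← pow_mul, ← pow_mul, mul_comm (d - 1) 2, ← mul_pow, mul_inv_cancel₀ this, one_pow]
    rw [mul_pow]
    calc (alp d ^ (d - 1)) ^ 2 * (1 - gam d) ^ 2 * ((alp d)⁻¹ ^ 2) ^ (d - 1)
        = ((alp d ^ (d - 1)) ^ 2 * ((alp d)⁻¹ ^ 2) ^ (d - 1)) * (1 - gam d) ^ 2 := by ring
      _ = (1 - gam d) ^ 2 := by rw [h3, one_mul]
  have e2 : 1 - 5 / 16 * gam d ≤ (kap d) ^ (d - 1) := by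
    have hb : 1 + ((d - 1 : ℕ) : ℝ) * (-(5 * gam d ^ 2)) ≤ (1 + (-(5 * gam d ^ 2))) ^ (d - 1) := by
      apply one_add_mul_le_pow
      nlinarith
    have hb2 : (1 + (-(5 * gam d ^ 2))) ^ (d - 1) ≤ (kap d) ^ (d - 1) := by
      apply pow_le_pow_left₀
      · nlinarith
      · linarith [hk.2.2]
    have hb3 : ((d - 1 : ℕ) : ℝ) ≤ d := by exact_mod_cast Nat.sub_le d 1
    have hb4 : ((d - 1 : ℕ) : ℝ) * (5 * gam d ^ 2) ≤ d * (5 * gam d ^ 2) := by
      apply mul_le_mul_of_nonneg_right hb3; positivity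
    have hb5 : (d : ℝ) * (5 * gam d ^ 2) = 5 / 16 * gam d := by
      calc (d : ℝ) * (5 * gam d ^ 2) = 5 * gam d * (d * gam d) := by ring
        _ = _ := by rw [hdg]; ring
    nlinarith
  have hkp : 0 < 1 - 5 / 16 * gam d := by linarith
  have hth := theta_pos hd
  have h2 : (theta d) ^ 2 * (1 - 5 / 16 * gam d) ≤ (1 - gam d) ^ 2 := by
    rw [← e1]
    exact mul_le_mul_of_nonneg_left e2 (sq_nonneg _)
  have h3 : (1 - gam d) ^ 2 ≤ (1 - gam d / 2) ^ 2 * (1 - 5 / 16 * gam d) := by
    nlinarith [mul_nonneg h0.le h0.le, mul_nonneg (mul_nonneg h0.le h0.le) h0.le,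
      mul_nonneg h0.le (by linarith : 0 ≤ 1 / 16 - gam d),
      mul_nonneg (mul_nonneg h0.le h0.le) (by linarith : 0 ≤ 1 / 16 - gam d)]
  have h4 : (theta d) ^ 2 ≤ (1 - gam d / 2) ^ 2 :=
    le_of_mul_le_mul_right (h2.trans h3) hkp
  exact (pow_le_pow_iff_left₀ hth.le (by linarith) two_ne_zero).1 h4

theorem theta_lt_one {d : ℕ} (hd : 1 ≤ d) : theta d < 1 := by
  have := theta_le hd
  have := gam_pos hd
  linarith

/-- the key quadratic inequality -/
theorem quad_ineq {d : ℕ} (hd : 1 ≤ d) {s : ℝ} (h1 : -1 ≤ s) (h2 : s ≤ gam d) :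
    ((s + gam d) / (1 - gam d)) ^ 2 + (1 - s ^ 2) * kap d ≤ 1 := by
  have h0 := gam_pos hd
  have h3 := gam_le hd
  have hp : 0 < 1 - gam d := by linarith
  have hkap : kap d * (1 - gam d) ^ 2 = (1 - 3 * gam d) * (1 + gam d) := by
    unfold kap
    field_simp
    ring
  have key : (s + gam d) ^ 2 + (1 - s ^ 2) * ((1 - 3 * gam d) * (1 + gam d))
      ≤ (1 - gam d) ^ 2 := by
    have e : (s + gam d) ^ 2 + (1 - s ^ 2) * ((1 - 3 * gam d) * (1 + gam d)) - (1 - gam d) ^ 2
        = (s + 1) * (s + 2 * gam d - 1 + (1 - s) * ((1 - 3 * gam d) * (1 + gam d))) := by ring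
    have hh : s + 2 * gam d - 1 + (1 - s) * ((1 - 3 * gam d) * (1 + gam d)) ≤ 0 := by
      have hK : (1 - 3 * gam d) * (1 + gam d) ≤ 1 := by nlinarith
      have e2 : s + 2 * gam d - 1 + (1 - s) * ((1 - 3 * gam d) * (1 + gam d))
          = (s - gam d) * (1 - (1 - 3 * gam d) * (1 + gam d)) - gam d ^ 2 * (1 - 3 * gam d) := by
        ring
      rw [e2]
      have : (s - gam d) * (1 - (1 - 3 * gam d) * (1 + gam d)) ≤ 0 := by
        apply mul_nonpos_of_nonpos_of_nonneg <;> linarith
      have : 0 ≤ gam d ^ 2 * (1 - 3 * gam d) := by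
        apply mul_nonneg (sq_nonneg _); linarith
      linarith
    have : (s + 1) * (s + 2 * gam d - 1 + (1 - s) * ((1 - 3 * gam d) * (1 + gam d))) ≤ 0 :=
      mul_nonpos_of_nonneg_of_nonpos (by linarith) hh
    linarith
  have e3 : (((s + gam d) / (1 - gam d)) ^ 2 + (1 - s ^ 2) * kap d) * (1 - gam d) ^ 2
      = (s + gam d) ^ 2 + (1 - s ^ 2) * ((1 - 3 * gam d) * (1 + gam d)) := by
    rw [← hkap, div_pow]
    field_simp
  have hp2 : 0 < (1 - gam d) ^ 2 := by positivity
  have : (((s + gam d) / (1 - gam d)) ^ 2 + (1 - s ^ 2) * kap d) * (1 - gam d) ^ 2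
      ≤ 1 * (1 - gam d) ^ 2 := by rw [e3, one_mul]; exact key
  exact le_of_mul_le_mul_right this hp2

/-- the linear functional `x ↦ ⟪u, x⟫` -/
noncomputable def fun1 {d : ℕ} (u : E d) : Module.Dual ℝ (E d) := (innerSL ℝ u).toLinearMap

theorem fun1_apply {d : ℕ} (u x : E d) : fun1 u x = inner ℝ u x := rfl

/-- the map stretching by `α` orthogonally to `u` and by `1 - γ` along `u` -/
noncomputable def stretch {d : ℕ} (u : E d) : E d →ₗ[ℝ] E d :=
  alp d • LinearMap.transvection (fun1 u) (((1 - gam d - alp d) / alp d) • u)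

theorem stretch_apply {d : ℕ} (hd : 1 ≤ d) (u x : E d) :
    stretch u x = alp d • x + ((1 - gam d - alp d) * inner ℝ u x) • u := by
  have := (alp_pos hd).ne'
  unfold stretch
  rw [LinearMap.smul_apply, LinearMap.transvection.apply, fun1_apply, smul_add, smul_smul, smul_smul]
  congr 2
  field_simp

theorem det_stretch {d : ℕ} (hd : 1 ≤ d) {u : E d} (hu : ‖u‖ = 1) :
    LinearMap.det (stretch u) = theta d := by
  have ha := (alp_pos hd).ne'
  unfold stretch theta
  rw [LinearMap.det_smul, LinearMap.transvection.det, map_smul, fun1_apply,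
    real_inner_self_eq_norm_sq, hu, finrank_euclideanSpace, Fintype.card_fin, smul_eq_mul]
  have hdd : alp d ^ d = alp d ^ (d - 1) * alp d := by
    rw [← pow_succ]; congr 1; omega
  rw [hdd]
  simp only [one_pow, mul_one]
  field_simp
  ring

theorem shallow {d : ℕ} (hd : 1 ≤ d) {u x : E d} (hu : ‖u‖ = 1) (hx : ‖x‖ ≤ 1)
    (hux : inner ℝ u x ≤ gam d) :
    ∃ w : E d, ‖w‖ ≤ 1 ∧ x = stretch u w - gam d • u := by
  have ha := alp_pos hd
  have hg := gam_le hd
  have hb : (1 - gam d) ≠ 0 := by linarith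
  set s : ℝ := inner ℝ u x with hs
  have huu : inner ℝ u u = (1 : ℝ) := by rw [real_inner_self_eq_norm_sq, hu]; norm_num
  have hs1 : -1 ≤ s := by
    have := abs_real_inner_le_norm u x
    rw [hu, one_mul] at this
    have := (abs_le.1 (this.trans hx)).1
    exact this
  set y : E d := x - s • u with hy
  have hyu : inner ℝ u y = (0 : ℝ) := by
    rw [hy, inner_sub_right, inner_smul_right, huu, ← hs]; ring
  have hxy : ‖y‖ ^ 2 = ‖x‖ ^ 2 - s ^ 2 := by
    have e : x = s • u + y := by rw [hy]; abel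
    have : ‖x‖ ^ 2 = s ^ 2 + ‖y‖ ^ 2 := by
      conv_lhs => rw [e]
      rw [norm_add_sq_real, inner_smul_left, hyu, norm_smul, hu]
      simp
    linarith
  refine ⟨((s + gam d) / (1 - gam d)) • u + (alp d)⁻¹ • y, ?_, ?_⟩
  · have hsq : ‖((s + gam d) / (1 - gam d)) • u + (alp d)⁻¹ • y‖ ^ 2 ≤ 1 := by
      rw [norm_add_sq_real, inner_smul_left, inner_smul_right, hyu, norm_smul, norm_smul, hu,
        mul_pow, mul_pow, hxy]
      simp only [mul_zero, add_zero, one_pow, mul_one, Real.norm_eq_abs, sq_abs]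
      rw [alp_sq hd]
      have h1 := quad_ineq hd hs1 hux
      have h2 : kap d * (‖x‖ ^ 2 - s ^ 2) ≤ (1 - s ^ 2) * kap d := by
        have : ‖x‖ ^ 2 ≤ 1 := by
          have := norm_nonneg x
          nlinarith
        have := (kap_bounds hd).1
        nlinarith
      linarith
    have h0 := norm_nonneg (((s + gam d) / (1 - gam d)) • u + (alp d)⁻¹ • y)
    nlinarith
  · rw [stretch_apply hd]
    have e1 : inner ℝ u (((s + gam d) / (1 - gam d)) • u + (alp d)⁻¹ • y)
        = (s + gam d) / (1 - gam d) := by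
      rw [inner_add_right, inner_smul_right, inner_smul_right, huu, hyu]; ring
    rw [e1, smul_add, smul_smul, smul_smul, mul_inv_cancel₀ ha.ne', one_smul, hy]
    have e2 : (alp d * ((s + gam d) / (1 - gam d))) • u + (x - s • u)
        + ((1 - gam d - alp d) * ((s + gam d) / (1 - gam d))) • u - gam d • u
        = x + ((alp d * ((s + gam d) / (1 - gam d))) + (1 - gam d - alp d) * ((s + gam d) / (1 - gam d))
          - s - gam d) • u := by
      simp only [sub_smul, add_smul]; abel
    rw [e2]
    have e3 : (alp d * ((s + gam d) / (1 - gam d))) + (1 - gam d - alp d) * ((s + gam d) / (1 - gam d))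
          - s - gam d = 0 := by
      field_simp
      ring
    rw [e3, zero_smul, add_zero]

/-! ### Ellipsoids -/

/-- the ellipsoid `z + A (unit ball)` -/
def ell {d : ℕ} (s : E d × (E d →ₗ[ℝ] E d)) : Set (E d) := {y | ∃ x : E d, ‖x‖ ≤ 1 ∧ y = s.1 + s.2 x}

/-- the new ellipsoid after a cut in (pulled back) direction `u` -/
noncomputable def cut {d : ℕ} (s : E d × (E d →ₗ[ℝ] E d)) (u : E d) : E d × (E d →ₗ[ℝ] E d) :=
  (s.1 - gam d • s.2 u, s.2 ∘ₗ stretch u)

theorem mem_ell_cut {d : ℕ} (hd : 1 ≤ d) (s : E d × (E d →ₗ[ℝ] E d)) {u : E d} (hu : ‖u‖ = 1)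
    {x : E d} (hx : ‖x‖ ≤ 1) (hux : inner ℝ u x ≤ gam d) : s.1 + s.2 x ∈ ell (cut s u) := by
  obtain ⟨w, hw, hxw⟩ := shallow hd hu hx hux
  refine ⟨w, hw, ?_⟩
  unfold cut
  simp only [LinearMap.comp_apply]
  rw [hxw, map_sub, map_smul]
  abel

theorem det_cut {d : ℕ} (hd : 1 ≤ d) (s : E d × (E d →ₗ[ℝ] E d)) {u : E d} (hu : ‖u‖ = 1) :
    LinearMap.det (cut s u).2 = LinearMap.det s.2 * theta d := by
  unfold cut
  simp only [LinearMap.det_comp, det_stretch hd hu]

/-- closed sup-norm ball of radius `r` around `c` -/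
def cube {d : ℕ} (c : E d) (r : ℝ) : Set (E d) := {y | ∀ i, |y i - c i| ≤ r}

open MeasureTheory in
theorem volume_cube {d : ℕ} (c : E d) {r : ℝ} (hr : 0 ≤ r) :
    volume (cube c r) = ENNReal.ofReal ((2 * r) ^ d) := by
  have h := (EuclideanSpace.volume_preserving_symm_measurableEquiv_toLp (Fin d))
  have hs : cube c r = (MeasurableEquiv.toLp 2 (Fin d → ℝ)).symm ⁻¹'
      (Set.pi univ (fun i => Icc (c i - r) (c i + r))) := by
    ext y
    simp only [cube, mem_ofPred_eq, mem_preimage, mem_pi, mem_univ, true_implies, mem_Icc,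
      abs_le]
    constructor
    · intro h i; have := h i
      exact ⟨by simpa using (by linarith : c i - r ≤ y i), by simpa using (by linarith : y i ≤ c i + r)⟩
    · intro h i; have := h i
      simp at this
      constructor <;> linarith [this.1, this.2]
  rw [hs, h.measure_preimage_equiv, volume_pi_pi]
  simp only [Real.volume_Icc]
  rw [Finset.prod_congr rfl (fun i _ => by
    rw [show c i + r - (c i - r) = 2 * r by ring])]
  rw [Finset.prod_const, Finset.card_univ, Fintype.card_fin, ENNReal.ofReal_pow (by linarith)]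

open MeasureTheory in
/-- volume bound for a cube inside an ellipsoid -/
theorem cube_le_det {d : ℕ} (s : E d × (E d →ₗ[ℝ] E d)) (c : E d) {r : ℝ} (hr : 0 ≤ r)
    (h : cube c r ⊆ ell s) : r ^ d ≤ |LinearMap.det s.2| := by
  have h1 : ell s = (fun y => s.1 + y) '' (s.2 '' (Metric.closedBall (0 : E d) 1)) := by
    ext y
    simp only [ell, mem_ofPred_eq, mem_image, Metric.mem_closedBall, dist_zero_right]
    constructor
    · rintro ⟨x, hx, rfl⟩; exact ⟨s.2 x, ⟨x, hx, rfl⟩, rfl⟩
    · rintro ⟨_, ⟨x, hx, rfl⟩, rfl⟩; exact ⟨x, hx, rfl⟩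
  have h2 : volume (ell s) = ENNReal.ofReal |LinearMap.det s.2| * volume (Metric.closedBall (0 : E d) 1) := by
    rw [h1, image_add_left, measure_preimage_add, Measure.addHaar_image_linearMap]
  have h3 : Metric.closedBall (0 : E d) 1 ⊆ cube 0 1 := by
    intro x hx i
    have hx' : ‖x‖ ≤ 1 := by simpa using hx
    have := EuclideanSpace.norm_eq x
    have h4 : |x i| ≤ ‖x‖ := by
      have := PiLp.norm_apply_le x i
      simpa using this
    simpa using h4.trans hx'
  have h4 : volume (cube c r) ≤ ENNReal.ofReal |LinearMap.det s.2| * volume (cube (0 : E d) 1) :=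
    (measure_mono h).trans (h2 ▸ (by gcongr))
  rw [volume_cube c hr, volume_cube 0 zero_le_one, ← ENNReal.ofReal_mul (abs_nonneg _),
    ENNReal.ofReal_le_ofReal_iff (by positivity), mul_pow, mul_pow, one_pow, mul_one] at h4
  have h5 : (0 : ℝ) < 2 ^ d := by positivity
  have h6 : (2 : ℝ) ^ d * r ^ d ≤ 2 ^ d * |LinearMap.det s.2| := by linarith
  exact le_of_mul_le_mul_left h6 h5

/-! ### The model -/

/-- The sup norm `‖x‖_∞` (Mathlib's norm on `Fin d → ℝ` is the maximum norm). -/
noncomputable def supNorm {d : ℕ} (x : E d) : ℝ := ‖(fun i => x i : Fin d → ℝ)‖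

/-- The box `[-R,R]^d`. -/
def box (d : ℕ) (R : ℝ) : Set (E d) := {z | ∀ i, |z i| ≤ R}

/-- An instance `(f, C)`: an extended valued function `f : ℝ^d → ℝ ∪ {+∞}` and a constraint
set `C`. -/
structure Inst (d : ℕ) where
  /-- the objective -/
  f : E d → WithTop ℝ
  /-- the constraint set -/
  C : Set (E d)

/-- The set of feasible points `C ∩ dom f`. -/
def Inst.feas {d : ℕ} (I : Inst d) : Set (E d) := {y | y ∈ I.C ∧ I.f y ≠ ⊤}

/-- `y` is an `ε`-approximate solution: `y ∈ C ∩ dom f` and `f y ≤ f y' + ε` for all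
`y' ∈ C ∩ dom f`. For `ε = 0` this says that `y` is an optimal solution. -/
def IsApprox {d : ℕ} (ε : ℝ) (I : Inst d) (y : E d) : Prop :=
  y ∈ I.feas ∧ ∀ y' ∈ I.feas, I.f y ≤ I.f y' + ((ε : ℝ) : WithTop ℝ)

/-- The class of instances with parameters `R, ρ, M`. -/
structure InClass {d : ℕ} (R ρ M : ℝ) (I : Inst d) : Prop where
  /-- `f` is convex (its epigraph is a convex set) -/
  convex_f : Convex ℝ {p : E d × ℝ | I.f p.1 ≤ ((p.2 : ℝ) : WithTop ℝ)}
  closed_C : IsClosed I.C
  convex_C : Convex ℝ I.C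
  /-- (i) `C ∩ dom f ⊆ [-R,R]^d` -/
  bounded : I.feas ⊆ box d R
  /-- (ii) if there is an optimal solution, some sup-norm ball of radius `ρ` is feasible -/
  thick : (∃ y, IsApprox 0 I y) → ∃ c : E d, cube c ρ ⊆ I.feas
  /-- (iii) on the box, `f` is identically `+∞`, or finite and `M`-Lipschitz for the sup norm -/
  lip : (∀ x ∈ box d R, I.f x = ⊤) ∨ ∀ x ∈ box d R, ∀ y ∈ box d R,
    I.f x ≠ ⊤ ∧ I.f x ≤ I.f y + ((M * supNorm (x - y) : ℝ) : WithTop ℝ)

/-- A complete first-order chart for the class with parameters `R, ρ, M`. -/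
structure Chart (d : ℕ) (R ρ M : ℝ) where
  /-- the separation map `g^sep_z`, a function of `C` -/
  sep : E d → Set (E d) → E d
  /-- the subgradient map `g^sub_z`, a function of `f`: a value and a vector -/
  sub : E d → (E d → WithTop ℝ) → WithTop ℝ × E d
  sep_of_mem : ∀ z ∈ box d R, ∀ I : Inst d, InClass R ρ M I → z ∈ I.C → sep z I.C = 0
  sep_of_notMem : ∀ z ∈ box d R, ∀ I : Inst d, InClass R ρ M I → z ∉ I.C →
    ‖sep z I.C‖ = 1 ∧ ∀ y ∈ I.C, inner ℝ (sep z I.C) y < inner ℝ (sep z I.C) z
  sub_value : ∀ z ∈ box d R, ∀ I : Inst d, InClass R ρ M I → (sub z I.f).1 = I.f z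
  /-- the vector is a subgradient of `f` at `z` when `f z` is finite -/
  sub_of_finite : ∀ z ∈ box d R, ∀ I : Inst d, InClass R ρ M I → I.f z ≠ ⊤ →
    ∀ y, I.f z + ((inner ℝ (sub z I.f).2 (y - z) : ℝ) : WithTop ℝ) ≤ I.f y
  /-- the vector defines a hyperplane separating `z` from `dom f` when `f z = +∞` -/
  sub_of_top : ∀ z ∈ box d R, ∀ I : Inst d, InClass R ρ M I → I.f z = ⊤ →
    (sub z I.f).2 ≠ 0 ∧ ∀ y, I.f y ≠ ⊤ → inner ℝ (sub z I.f).2 y ≤ inner ℝ (sub z I.f).2 z

/-- A query of the general binary oracle: a point `z` of the box and an arbitrary `0-1` valued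
function applied to the answer of the chart at `z`. -/
inductive Query (d : ℕ) (R : ℝ)
  | sepQ (z : box d R) (h : E d → Bool)
  | subQ (z : box d R) (h : WithTop ℝ × E d → Bool)

/-- The answer of the oracle based on the chart `G` to a query, for the instance `I`. -/
def answer {d : ℕ} {R ρ M : ℝ} (G : Chart d R ρ M) (q : Query d R) (I : Inst d) : Bool :=
  match q with
  | .sepQ z h => h (G.sep z I.C)
  | .subQ z h => h (G.sub z I.f)

/-- A query strategy maps each finite history of query-answer pairs to the next query. -/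
abbrev Strategy (d : ℕ) (R : ℝ) := List (Query d R × Bool) → Query d R

/-- The history of the first `k` query-answer pairs of the strategy `D` on the instance `I`. -/
def transcript {d : ℕ} {R ρ M : ℝ} (G : Chart d R ρ M) (D : Strategy d R) (I : Inst d) :
    ℕ → List (Query d R × Bool)
  | 0 => []
  | k + 1 => transcript G D I k ++
      [(D (transcript G D I k), answer G (D (transcript G D I k)) I)]

/-- After `k` queries the instance `I` is settled: all instances of the class that answer the first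
`k` queries of `D` as `I` does have a common `ε`-approximate solution, or none of them has a
feasible point. -/
def Settled {d : ℕ} {R ρ M : ℝ} (G : Chart d R ρ M) (D : Strategy d R) (ε : ℝ) (I : Inst d)
    (k : ℕ) : Prop :=
  (∃ y, ∀ I' : Inst d, InClass R ρ M I' → transcript G D I' k = transcript G D I k →
      IsApprox ε I' y) ∨
  (∀ I' : Inst d, InClass R ρ M I' → transcript G D I' k = transcript G D I k → I'.feas = ∅)

/-- `icomp_ε(D, I)`, the least `k` such that `I` is settled after `k` queries of `D`. -/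
noncomputable def icompAt {d : ℕ} {R ρ M : ℝ} (G : Chart d R ρ M) (D : Strategy d R) (ε : ℝ)
    (I : Inst d) : ℕ∞ :=
  ⨅ k ∈ {k : ℕ | Settled G D ε I k}, (k : ℕ∞)

/-- The information complexity `icomp_ε(d, R, ρ, M, G)`. -/
noncomputable def icomp {d : ℕ} {R ρ M : ℝ} (G : Chart d R ρ M) (ε : ℝ) : ℕ∞ :=
  ⨅ D : Strategy d R, ⨆ I ∈ {I : Inst d | InClass R ρ M I}, icompAt G D ε I

/-! ### Block strategies -/

section Blocks

variable {d : ℕ} {R ρ M : ℝ} (G : Chart d R ρ M) (D : Strategy d R)

/-- the `j`-th answer -/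
def bit (I : Inst d) (j : ℕ) : Bool := answer G (D (transcript G D I j)) I

theorem length_transcript (I : Inst d) (k : ℕ) : (transcript G D I k).length = k := by
  induction k with
  | zero => rfl
  | succ k ih => simp [transcript, ih]

theorem map_transcript (I : Inst d) (k : ℕ) :
    (transcript G D I k).map Prod.snd = (List.range k).map (bit G D I) := by
  induction k with
  | zero => rfl
  | succ k ih => simp [transcript, ih, List.range_succ, bit]

theorem getD_transcript (I : Inst d) {j k : ℕ} (h : j < k) :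
    ((transcript G D I k).map Prod.snd).getD j false = bit G D I j := by
  rw [map_transcript]
  simp [List.getD, h]

variable {σ ι : Type} {m : ℕ} (hm : 0 < m) (e : Fin m ≃ ι) (s0 : σ) (q : σ → ι → Query d R)
  (upd : σ → (ι → Bool) → σ)

/-- state after `b` blocks computed from the list of answers -/
def stateOf (L : List Bool) : ℕ → σ
  | 0 => s0
  | b + 1 => upd (stateOf L b) (fun i => L.getD (b * m + e.symm i) false)

/-- the strategy that asks blocks of `m` queries and updates its state after each block -/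
def strat : Strategy d R := fun H =>
  q (stateOf e s0 upd (H.map Prod.snd) (H.length / m)) (e ⟨H.length % m, Nat.mod_lt _ hm⟩)

/-- the sequence of states on an instance -/
def trueState (I : Inst d) : ℕ → σ
  | 0 => s0
  | b + 1 => upd (trueState I b) (fun i => answer G (q (trueState I b) i) I)

theorem block_aux (I : Inst d) (b : ℕ) :
    (∀ k, b * m ≤ k → stateOf e s0 upd ((transcript G (strat hm e s0 q upd) I k).map Prod.snd) b
      = trueState G s0 q upd I b) ∧
    (∀ i : ι, bit G (strat hm e s0 q upd) I (b * m + e.symm i)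
      = answer G (q (trueState G s0 q upd I b) i) I) := by
  have step : ∀ b, (∀ k, b * m ≤ k →
      stateOf e s0 upd ((transcript G (strat hm e s0 q upd) I k).map Prod.snd) b
      = trueState G s0 q upd I b) → (∀ i : ι, bit G (strat hm e s0 q upd) I (b * m + e.symm i)
      = answer G (q (trueState G s0 q upd I b) i) I) := by
    intro b hb i
    have hi : ((e.symm i : Fin m) : ℕ) < m := (e.symm i).2
    have h1 : (b * m + (e.symm i : Fin m)) / m = b := by
      rw [mul_comm, Nat.mul_add_div hm, Nat.div_eq_of_lt hi, add_zero]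
    have h2 : (b * m + (e.symm i : Fin m)) % m = (e.symm i : Fin m) := by
      rw [mul_comm, Nat.mul_add_mod, Nat.mod_eq_of_lt hi]
    unfold bit
    congr 1
    conv_lhs => unfold strat
    simp only [length_transcript]
    have h3 : e ⟨(b * m + (e.symm i : Fin m)) % m, Nat.mod_lt _ hm⟩ = i := by
      have : (⟨(b * m + (e.symm i : Fin m)) % m, Nat.mod_lt _ hm⟩ : Fin m) = e.symm i :=
        Fin.ext h2
      rw [this, Equiv.apply_symm_apply]
    rw [h3, h1]
    congr 1
    exact hb _ (Nat.le_add_right _ _)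
  induction b with
  | zero =>
    have h0 : ∀ k, 0 * m ≤ k →
      stateOf e s0 upd ((transcript G (strat hm e s0 q upd) I k).map Prod.snd) 0
      = trueState G s0 q upd I 0 := fun _ _ => rfl
    exact ⟨h0, step 0 h0⟩
  | succ b ih =>
    have h1 : ∀ k, (b + 1) * m ≤ k →
      stateOf e s0 upd ((transcript G (strat hm e s0 q upd) I k).map Prod.snd) (b + 1)
      = trueState G s0 q upd I (b + 1) := by
      intro k hk
      have hbk : b * m ≤ k := le_trans (Nat.mul_le_mul_right m (Nat.le_succ b)) hk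
      unfold stateOf trueState
      rw [ih.1 k hbk]
      congr 1
      funext i
      have hi : ((e.symm i : Fin m) : ℕ) < m := (e.symm i).2
      rw [getD_transcript, ih.2 i]
      have : (b + 1) * m = b * m + m := by ring
      omega
    exact ⟨h1, step (b + 1) h1⟩

/-- consistent instances go through the same states and give the same answers -/
theorem consistent {I I' : Inst d} {T : ℕ}
    (h : transcript G (strat hm e s0 q upd) I' (T * m)
      = transcript G (strat hm e s0 q upd) I (T * m)) :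
    (∀ b ≤ T, trueState G s0 q upd I' b = trueState G s0 q upd I b) ∧
    (∀ b < T, ∀ i, answer G (q (trueState G s0 q upd I' b) i) I'
      = answer G (q (trueState G s0 q upd I b) i) I) := by
  have hbit : ∀ j < T * m, bit G (strat hm e s0 q upd) I' j = bit G (strat hm e s0 q upd) I j := by
    intro j hj
    rw [← getD_transcript G _ I' hj, ← getD_transcript G _ I hj, h]
  constructor
  · intro b hb
    have hk : b * m ≤ T * m := Nat.mul_le_mul_right m hb
    rw [← (block_aux G hm e s0 q upd I' b).1 _ hk, ← (block_aux G hm e s0 q upd I b).1 _ hk, h]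
  · intro b hb i
    rw [← (block_aux G hm e s0 q upd I' b).2 i, ← (block_aux G hm e s0 q upd I b).2 i]
    apply hbit
    have hi : ((e.symm i : Fin m) : ℕ) < m := (e.symm i).2
    have : (b + 1) * m ≤ T * m := Nat.mul_le_mul_right m hb
    have : (b + 1) * m = b * m + m := by ring
    omega

end Blocks

/-! ### The shallow cut strategy -/

/-- normalisation -/
noncomputable def nrm {d : ℕ} (v : E d) : E d := ‖v‖⁻¹ • v

theorem norm_nrm {d : ℕ} {v : E d} (hv : v ≠ 0) : ‖nrm v‖ = 1 := by
  unfold nrm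
  rw [norm_smul, norm_inv, norm_norm, inv_mul_cancel₀ (norm_ne_zero_iff.2 hv)]

theorem zero_mem_box {d : ℕ} {R : ℝ} (hR : 0 < R) : (0 : E d) ∈ box d R := by
  intro i; simp [hR.le]

theorem box_norm {d : ℕ} {R : ℝ} (hR : 0 < R) (hd : 1 ≤ d) {x : E d} (hx : x ∈ box d R) :
    ‖x‖ ≤ d * R := by
  have hd' : (1 : ℝ) ≤ d := by exact_mod_cast hd
  rw [EuclideanSpace.norm_eq]
  apply Real.sqrt_le_iff.2
  refine ⟨by positivity, ?_⟩
  calc ∑ i, ‖x i‖ ^ 2 ≤ ∑ _i : Fin d, R ^ 2 := by
        apply Finset.sum_le_sum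
        intro i _
        have := hx i
        rw [Real.norm_eq_abs]
        exact pow_le_pow_left₀ (abs_nonneg _) this 2
    _ = d * R ^ 2 := by simp
    _ ≤ (d * R) ^ 2 := by nlinarith [sq_nonneg R, mul_nonneg (by linarith : (0 : ℝ) ≤ d - 1) (sq_nonneg R)]

/-- a point outside the box is separated from it -/
theorem exists_outer {d : ℕ} {R : ℝ} {z : E d} (hz : z ∉ box d R) :
    ∃ a : E d, a ≠ 0 ∧ ∀ y ∈ box d R, inner ℝ a y ≤ inner ℝ a z := by
  have : ∃ i, R < |z i| := by
    by_contra hcon
    push Not at hcon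
    exact hz hcon
  obtain ⟨i, hi⟩ := this
  rcases le_or_gt 0 (z i) with h0 | h0
  · rw [abs_of_nonneg h0] at hi
    refine ⟨EuclideanSpace.single i 1, ?_, ?_⟩
    · intro h
      have := congrArg (fun v : E d => v i) h
      simp at this
    · intro y hy
      rw [EuclideanSpace.inner_single_left, EuclideanSpace.inner_single_left]
      simp only [map_one, one_mul]
      exact ((le_abs_self _).trans (hy i)).trans hi.le
  · rw [abs_of_neg h0] at hi
    refine ⟨EuclideanSpace.single i (-1), ?_, ?_⟩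
    · intro h
      have := congrArg (fun v : E d => v i) h
      simp at this
    · intro y hy
      rw [EuclideanSpace.inner_single_left, EuclideanSpace.inner_single_left]
      simp only [map_neg, map_one, neg_mul, one_mul]
      have := (neg_le_abs (y i)).trans (hy i)
      linarith

/-- the net vector `v` approximates the pulled back normal -/
def near {d : ℕ} (A : E d →ₗ[ℝ] E d) (a v : E d) : Prop :=
  ‖nrm (LinearMap.adjoint A a) - v‖ ≤ del d

theorem adjoint_ne_zero {d : ℕ} {A : E d →ₗ[ℝ] E d} (hA : LinearMap.det A ≠ 0) {a : E d}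
    (ha : a ≠ 0) : LinearMap.adjoint A a ≠ 0 := by
  intro h
  obtain ⟨x, hx⟩ := (LinearMap.equivOfDetNeZero A hA).surjective a
  have hx' : A x = a := hx
  have h1 : inner ℝ (LinearMap.adjoint A a) x = inner ℝ a (A x) := LinearMap.adjoint_inner_left A x a
  rw [h, inner_zero_left, hx'] at h1
  exact ha (inner_self_eq_zero.1 h1.symm)

theorem inner_net_le {d : ℕ} {A : E d →ₗ[ℝ] E d} {a v x : E d} (hn : near A a v) (hx : ‖x‖ ≤ 1)
    {c : ℝ} (hc : 0 ≤ c) (h : inner ℝ a (A x) ≤ c * ‖LinearMap.adjoint A a‖) :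
    inner ℝ v x ≤ c + del d := by
  have h1 : inner ℝ v x = inner ℝ (nrm (LinearMap.adjoint A a)) x
      - inner ℝ (nrm (LinearMap.adjoint A a) - v) x := by
    rw [inner_sub_left]; ring
  have h2 : -(inner ℝ (nrm (LinearMap.adjoint A a) - v) x) ≤ del d := by
    have := abs_real_inner_le_norm (nrm (LinearMap.adjoint A a) - v) x
    have h3 : ‖nrm (LinearMap.adjoint A a) - v‖ * ‖x‖ ≤ del d * 1 := by
      unfold near at hn
      have := norm_nonneg (nrm (LinearMap.adjoint A a) - v)
      have := norm_nonneg x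
      apply mul_le_mul hn hx (norm_nonneg _) (by linarith)
    have := neg_le_abs (inner ℝ (nrm (LinearMap.adjoint A a) - v) x)
    linarith
  have h4 : inner ℝ (nrm (LinearMap.adjoint A a)) x ≤ c := by
    unfold nrm
    rw [inner_smul_left, LinearMap.adjoint_inner_left]
    simp only [map_inv₀, RCLike.conj_to_real]
    rcases eq_or_ne (‖LinearMap.adjoint A a‖) 0 with h0 | h0
    · rw [h0]; simpa using hc
    · have hpos : 0 < ‖LinearMap.adjoint A a‖ := lt_of_le_of_ne (norm_nonneg _) (Ne.symm h0)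
      rw [inv_mul_le_iff₀ hpos]
      linarith
  rw [h1]; linarith

section EllStrategy

open Classical

variable {d : ℕ} {R : ℝ} (hR : 0 < R) {w : ℕ} (code : E d → (Fin d × Fin w → Bool))
  (net : (Fin d × Fin w → Bool) → E d) (ε : ℝ)

/-- the query point -/
noncomputable def pt (z : E d) : box d R := if h : z ∈ box d R then ⟨z, h⟩ else ⟨0, zero_mem_box hR⟩

theorem pt_of_mem {z : E d} (h : z ∈ box d R) : (pt hR z : E d) = z := by
  unfold pt; rw [dif_pos h]

/-- the queries of one block -/
noncomputable def qq (s : E d × (E d →ₗ[ℝ] E d)) : Option (Bool × Option (Fin d × Fin w)) → Query d R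
  | none => .subQ ⟨0, zero_mem_box hR⟩ (fun p => decide (p.1 = ⊤))
  | some (false, none) => .sepQ (pt hR s.1) (fun a => decide (a ≠ 0))
  | some (false, some i) => .sepQ (pt hR s.1) (fun a => code (nrm (LinearMap.adjoint s.2 a)) i)
  | some (true, none) => .subQ (pt hR s.1) (fun p => decide (ε / 2 < ‖LinearMap.adjoint s.2 p.2‖))
  | some (true, some i) => .subQ (pt hR s.1)
      (fun p => code (nrm (LinearMap.adjoint s.2 p.2)) i)

/-- the code of the cut chosen after the answers `B` -/
noncomputable def dir (R : ℝ) {w : ℕ} (code : E d → (Fin d × Fin w → Bool))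
    (s : E d × (E d →ₗ[ℝ] E d)) (B : Option (Bool × Option (Fin d × Fin w)) → Bool) :
    Option (Fin d × Fin w → Bool) :=
  if h : s.1 ∉ box d R then some (code (nrm (LinearMap.adjoint s.2 (exists_outer h).choose)))
  else if B (some (false, none)) = true then some (fun i => B (some (false, some i)))
  else if B (some (true, none)) = true then some (fun i => B (some (true, some i)))
  else none

/-- the state update -/
noncomputable def updd (R : ℝ) {w : ℕ} (code : E d → (Fin d × Fin w → Bool))
    (net : (Fin d × Fin w → Bool) → E d) (s : E d × (E d →ₗ[ℝ] E d))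
    (B : Option (Bool × Option (Fin d × Fin w)) → Bool) : E d × (E d →ₗ[ℝ] E d) :=
  match dir R code s B with
  | some j => cut s (net j)
  | none => s

variable {ρ M : ℝ} (G : Chart d R ρ M)

/-- The center is feasible when the answers name no cut. -/
theorem center_mem {I : Inst d} (hI : InClass R ρ M I) {s : E d × (E d →ₗ[ℝ] E d)}
    (hdir : dir R code s (fun i => answer G (qq hR code ε s i) I) = none) :
    s.1 ∈ box d R ∧ s.1 ∈ I.C ∧ ‖LinearMap.adjoint s.2 (G.sub s.1 I.f).2‖ ≤ ε / 2 := by
  unfold dir at hdir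
  split_ifs at hdir with h1 h2 h3
  have hbox : s.1 ∈ box d R := h1
  simp only [qq, answer, decide_eq_true_eq] at h2 h3
  rw [pt_of_mem hR hbox] at h2 h3
  push Not at h2 h3
  refine ⟨hbox, ?_, h3⟩
  by_contra hcon
  have hs := G.sep_of_notMem s.1 hbox I hI hcon
  rw [h2, norm_zero] at hs
  exact zero_ne_one hs.1

/-- properties of the set of very good solutions which is never cut off -/
structure Good {d : ℕ} (R : ℝ) (η : ℝ) (I : Inst d) (Q : Set (E d)) : Prop where
  fin : ∀ x ∈ box d R, I.f x ≠ ⊤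
  sub : Q ⊆ I.feas
  bdd : I.feas ⊆ box d R
  opt : ∀ y ∈ Q, ∀ z ∈ I.feas, I.f y ≤ I.f z + ((η : ℝ) : WithTop ℝ)

theorem withTop_aux {a b : WithTop ℝ} {x y : ℝ} (ha : a ≠ ⊤)
    (h1 : a + ((x : ℝ) : WithTop ℝ) ≤ b) (h2 : b ≤ a + ((y : ℝ) : WithTop ℝ)) : x ≤ y := by
  lift a to ℝ using ha
  have h3 := h1.trans h2
  rw [← WithTop.coe_add, ← WithTop.coe_add, WithTop.coe_le_coe] at h3
  linarith

theorem cut_step (hcov : ∀ u : E d, ‖u‖ = 1 → ‖u - net (code u)‖ ≤ del d)
    (hunit : ∀ j, ‖net j‖ = 1) (hd : 1 ≤ d) (hε : 0 < ε)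
    {I : Inst d} (hI : InClass R ρ M I) {Q : Set (E d)} {η : ℝ}
    (hη2 : 2 * η ≤ del d * ε)
    (hQ : Good R η I Q) {s : E d × (E d →ₗ[ℝ] E d)}
    (hdet : LinearMap.det s.2 ≠ 0) (hs : Q ⊆ ell s) :
    Q ⊆ ell (updd R code net s (fun i => answer G (qq hR code ε s i) I)) := by
  have hδ := del_pos hd
  have hgd : gam d = del d + del d := by unfold del; ring
  -- it suffices to bound the inner product with the net vector
  have hred : ∀ j, (∀ y ∈ Q, ∀ x : E d, ‖x‖ ≤ 1 → y = s.1 + s.2 x →
      inner ℝ (net j) x ≤ gam d) → Q ⊆ ell (cut s (net j)) := by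
    intro j hj y hy
    obtain ⟨x, hx, hyx⟩ := hs hy
    rw [hyx]
    exact mem_ell_cut hd s (hunit j) hx (hj y hy x hx hyx)
  have hlin : ∀ (a : E d), (∀ y ∈ Q, inner ℝ a y ≤ inner ℝ a s.1) → ∀ j, near s.2 a (net j) →
      Q ⊆ ell (cut s (net j)) := by
    intro a ha j hj
    apply hred
    intro y hy x hx hyx
    have h1 : inner ℝ a (s.2 x) ≤ 0 * ‖LinearMap.adjoint s.2 a‖ := by
      have := ha y hy
      rw [hyx, inner_add_right] at this
      linarith
    have := inner_net_le hj hx le_rfl h1
    linarith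
  have hnear : ∀ v : E d, LinearMap.adjoint s.2 v ≠ 0 →
      near s.2 v (net (code (nrm (LinearMap.adjoint s.2 v)))) := fun v hv =>
    hcov _ (norm_nrm hv)
  unfold updd dir
  by_cases h1 : s.1 ∉ box d R
  · rw [dif_pos h1]
    simp only
    obtain ⟨ha, hsep⟩ := (exists_outer h1).choose_spec
    exact hlin _ (fun y hy => hsep y (hQ.bdd (hQ.sub hy))) _ (hnear _ (adjoint_ne_zero hdet ha))
  · rw [dif_neg h1]
    have hbox : s.1 ∈ box d R := not_not.1 h1
    have hpt : (pt hR s.1 : E d) = s.1 := pt_of_mem hR hbox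
    by_cases h2 : G.sep s.1 I.C ≠ 0
    · have hB : answer G (qq hR code ε s (some (false, none))) I = true := by
        simp only [qq, answer, decide_eq_true_eq]
        rw [hpt]; exact h2
      rw [if_pos hB]
      simp only
      have hcode : (fun i => answer G (qq hR code ε s (some (false, some i))) I)
          = code (nrm (LinearMap.adjoint s.2 (G.sep s.1 I.C))) := by
        funext i
        simp only [qq, answer]
        rw [hpt]
      rw [hcode]
      have hC : s.1 ∉ I.C := fun hC => h2 (G.sep_of_mem s.1 hbox I hI hC)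
      have hsep := (G.sep_of_notMem s.1 hbox I hI hC).2
      exact hlin _ (fun y hy => (hsep y (hQ.sub hy).1).le) _ (hnear _ (adjoint_ne_zero hdet h2))
    · have hB : ¬ (answer G (qq hR code ε s (some (false, none))) I = true) := by
        simp only [qq, answer, decide_eq_true_eq]
        rw [hpt]; exact h2
      rw [if_neg hB]
      have hC : s.1 ∈ I.C := by
        by_contra hcon
        have hs' := G.sep_of_notMem s.1 hbox I hI hcon
        rw [not_not.1 h2, norm_zero] at hs'
        exact zero_ne_one hs'.1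
      by_cases h3 : ε / 2 < ‖LinearMap.adjoint s.2 (G.sub s.1 I.f).2‖
      · have hB3 : answer G (qq hR code ε s (some (true, none))) I = true := by
          simp only [qq, answer, decide_eq_true_eq]
          rw [hpt]; exact h3
        rw [if_pos hB3]
        simp only
        have hcode : (fun i => answer G (qq hR code ε s (some (true, some i))) I)
            = code (nrm (LinearMap.adjoint s.2 (G.sub s.1 I.f).2)) := by
          funext i
          simp only [qq, answer]
          rw [hpt]
        rw [hcode]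
        have hfin := hQ.fin s.1 hbox
        have hfeas : s.1 ∈ I.feas := ⟨hC, hfin⟩
        have hne : LinearMap.adjoint s.2 (G.sub s.1 I.f).2 ≠ 0 := by
          intro h0
          rw [h0, norm_zero] at h3
          linarith
        apply hred
        intro y hy x hx hyx
        have h4 := G.sub_of_finite s.1 hbox I hI hfin y
        have h5 := hQ.opt y hy s.1 hfeas
        have h6 := withTop_aux hfin h4 h5
        have h7 : y - s.1 = s.2 x := by rw [hyx]; abel
        rw [h7] at h6
        have h8 : inner ℝ (G.sub s.1 I.f).2 (s.2 x)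
            ≤ del d * ‖LinearMap.adjoint s.2 (G.sub s.1 I.f).2‖ := by
          have : del d * (ε / 2) ≤ del d * ‖LinearMap.adjoint s.2 (G.sub s.1 I.f).2‖ :=
            mul_le_mul_of_nonneg_left h3.le hδ.le
          linarith
        have := inner_net_le (hnear _ hne) hx hδ.le h8
        linarith
      · have hB3 : ¬ (answer G (qq hR code ε s (some (true, none))) I = true) := by
          simp only [qq, answer, decide_eq_true_eq]
          rw [hpt]; exact h3
        rw [if_neg hB3]
        exact hs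

theorem stop_step {I : Inst d} (hI : InClass R ρ M I) {Q : Set (E d)} {η : ℝ}
    (hη2 : 2 * η ≤ ε) (hε : 0 < ε)
    (hQ : Good R η I Q) (hne : Q.Nonempty) {s : E d × (E d →ₗ[ℝ] E d)} (hs : Q ⊆ ell s)
    (hdir : dir R code s (fun i => answer G (qq hR code ε s i) I) = none) :
    IsApprox ε I s.1 := by
  obtain ⟨hbox, hC, hg'⟩ := center_mem hR code ε G hI hdir
  have hfin := hQ.fin s.1 hbox
  refine ⟨⟨hC, hfin⟩, ?_⟩
  intro y' hy'
  obtain ⟨y, hy⟩ := hne
  obtain ⟨x, hx, hyx⟩ := hs hy
  have h4 := G.sub_of_finite s.1 hbox I hI hfin y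
  have h5 := hQ.opt y hy y' hy'
  have h7 : y - s.1 = s.2 x := by rw [hyx]; abel
  rw [h7] at h4
  have h8 : -(ε / 2) ≤ inner ℝ (G.sub s.1 I.f).2 (s.2 x) := by
    rw [← LinearMap.adjoint_inner_left]
    have h9 := abs_real_inner_le_norm (LinearMap.adjoint s.2 (G.sub s.1 I.f).2) x
    have h10 : ‖LinearMap.adjoint s.2 (G.sub s.1 I.f).2‖ * ‖x‖ ≤ ε / 2 * 1 :=
      mul_le_mul hg' hx (norm_nonneg _) (by linarith)
    have := neg_le_of_abs_le (h9.trans h10)
    linarith
  have h11 := h4.trans h5
  have hy'fin := hy'.2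
  lift I.f s.1 to ℝ using hfin with a
  lift I.f y' to ℝ using hy'fin with b
  rw [← WithTop.coe_add, ← WithTop.coe_add, WithTop.coe_le_coe] at h11
  rw [← WithTop.coe_add, WithTop.coe_le_coe]
  linarith

theorem det_updd (hunit : ∀ j, ‖net j‖ = 1) (hd : 1 ≤ d) (s : E d × (E d →ₗ[ℝ] E d))
    (B : Option (Bool × Option (Fin d × Fin w)) → Bool) (hdet : LinearMap.det s.2 ≠ 0) :
    LinearMap.det (updd R code net s B).2 ≠ 0 := by
  unfold updd
  rcases dir R code s B with _ | j
  · exact hdet
  · simp only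
    rw [det_cut hd s (hunit j)]
    exact mul_ne_zero hdet (theta_pos hd).ne'

end EllStrategy

/-! ### Existence of the set of very good solutions -/

theorem abs_apply_le_supNorm {d : ℕ} (x : E d) (i : Fin d) : |x i| ≤ supNorm x := by
  unfold supNorm
  have := norm_le_pi_norm (fun i => x i : Fin d → ℝ) i
  simpa using this

theorem supNorm_le {d : ℕ} {x : E d} {r : ℝ} (hr : 0 ≤ r) (h : ∀ i, |x i| ≤ r) :
    supNorm x ≤ r := by
  unfold supNorm
  rw [pi_norm_le_iff_of_nonneg hr]
  intro i
  simpa using h i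

theorem supNorm_le_norm {d : ℕ} (x : E d) : supNorm x ≤ ‖x‖ := by
  apply supNorm_le (norm_nonneg _)
  intro i
  have := PiLp.norm_apply_le x i
  simpa using this

theorem isClosed_box (d : ℕ) (R : ℝ) : IsClosed (box d R) := by
  have : box d R = ⋂ i : Fin d, {z : E d | |z i| ≤ R} := by
    ext z; simp [box]
  rw [this]
  apply isClosed_iInter
  intro i
  apply isClosed_le _ continuous_const
  exact (continuous_abs.comp (by fun_prop))

theorem isBounded_box {d : ℕ} {R : ℝ} (hR : 0 < R) (hd : 1 ≤ d) :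
    Bornology.IsBounded (box d R) := by
  apply (Metric.isBounded_closedBall (x := (0 : E d)) (r := d * R)).subset
  intro x hx
  simpa using box_norm hR hd hx

theorem convex_box (d : ℕ) (R : ℝ) : Convex ℝ (box d R) := by
  intro x hx y hy a b ha hb hab i
  have h1 := hx i
  have h2 := hy i
  have e : (a • x + b • y) i = a * x i + b * y i := by simp
  rw [e]
  calc |a * x i + b * y i| ≤ |a * x i| + |b * y i| := abs_add_le _ _
    _ = a * |x i| + b * |y i| := by rw [abs_mul, abs_mul, abs_of_nonneg ha, abs_of_nonneg hb]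
    _ ≤ a * R + b * R := by gcongr
    _ = R := by rw [← add_mul, hab, one_mul]

theorem exists_good {d : ℕ} {R ρ M : ℝ} (hR : 0 < R) (hM : 0 < M) (hd : 1 ≤ d)
    {I : Inst d} (hI : InClass R ρ M I) (hfin : ∀ x ∈ box d R, I.f x ≠ ⊤)
    (hlip : ∀ x ∈ box d R, ∀ y ∈ box d R, I.f x ≤ I.f y + ((M * supNorm (x - y) : ℝ) : WithTop ℝ))
    (hne : I.feas.Nonempty) {t η : ℝ} (ht0 : 0 < t) (ht1 : t ≤ 1) (hη : 2 * M * R * t ≤ η) :
    ∃ p : E d, Good R η I (cube p (t * ρ)) := by
  -- the real valued function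
  set φ : E d → ℝ := fun x => (I.f x).untopD 0 with hφ
  have hcoe : ∀ x ∈ box d R, I.f x = ((φ x : ℝ) : WithTop ℝ) := by
    intro x hx
    simp only [hφ]
    obtain ⟨a, ha⟩ := WithTop.ne_top_iff_exists.1 (hfin x hx)
    rw [← ha, WithTop.untopD_coe]
  have hφlip : ∀ x ∈ box d R, ∀ y ∈ box d R, φ x ≤ φ y + M * supNorm (x - y) := by
    intro x hx y hy
    have := hlip x hx y hy
    rw [hcoe x hx, hcoe y hy, ← WithTop.coe_add, WithTop.coe_le_coe] at this
    exact this
  have hfeas : I.feas = I.C ∩ box d R := by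
    ext y
    constructor
    · intro hy; exact ⟨hy.1, hI.bounded hy⟩
    · intro hy; exact ⟨hy.1, hfin y hy.2⟩
  have hcomp : IsCompact I.feas := by
    rw [hfeas]
    apply Metric.isCompact_of_isClosed_isBounded (hI.closed_C.inter (isClosed_box d R))
    exact (isBounded_box hR hd).subset inter_subset_right
  have hcont : ContinuousOn φ I.feas := by
    have : LipschitzOnWith (Real.toNNReal M) φ I.feas := by
      apply LipschitzOnWith.of_dist_le_mul
      intro x hx y hy
      have hx' := hI.bounded hx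
      have hy' := hI.bounded hy
      rw [Real.dist_eq, dist_eq_norm, Real.coe_toNNReal _ hM.le, abs_le]
      have h1 := hφlip x hx' y hy'
      have h2 := hφlip y hy' x hx'
      have h3 : M * supNorm (x - y) ≤ M * ‖x - y‖ :=
        mul_le_mul_of_nonneg_left (supNorm_le_norm _) hM.le
      have h4 : M * supNorm (y - x) ≤ M * ‖x - y‖ := by
        rw [norm_sub_rev]
        exact mul_le_mul_of_nonneg_left (supNorm_le_norm _) hM.le
      constructor <;> linarith
    exact this.continuousOn
  obtain ⟨ys, hys, hmin⟩ := hcomp.exists_isMinOn hne hcont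
  have hopt : IsApprox 0 I ys := by
    refine ⟨hys, fun y' hy' => ?_⟩
    rw [hcoe _ (hI.bounded hys), hcoe _ (hI.bounded hy'), ← WithTop.coe_add, WithTop.coe_le_coe,
      add_zero]
    exact hmin hy'
  obtain ⟨c, hc⟩ := hI.thick ⟨ys, hopt⟩
  refine ⟨(1 - t) • ys + t • c, ?_⟩
  -- representation of the points of the small cube
  have hrep : ∀ y ∈ cube ((1 - t) • ys + t • c) (t * ρ), ∃ w ∈ cube c ρ, y = (1 - t) • ys + t • w := by
    intro y hy
    refine ⟨c + t⁻¹ • (y - ((1 - t) • ys + t • c)), ?_, ?_⟩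
    · intro i
      have h1 := hy i
      have e : (c + t⁻¹ • (y - ((1 - t) • ys + t • c))) i - c i
          = t⁻¹ * (y i - ((1 - t) • ys + t • c) i) := by
        simp only [PiLp.add_apply, PiLp.smul_apply, PiLp.sub_apply, smul_eq_mul]
        ring
      rw [e, abs_mul, abs_of_pos (inv_pos.2 ht0), inv_mul_le_iff₀ ht0]
      exact h1
    · rw [smul_add, smul_smul, mul_inv_cancel₀ ht0.ne', one_smul]
      abel
  have hmem : ∀ y ∈ cube ((1 - t) • ys + t • c) (t * ρ), y ∈ I.feas ∧ φ y ≤ φ ys + η := by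
    intro y hy
    obtain ⟨w, hw, rfl⟩ := hrep y hy
    have hw' := hc hw
    have hwb := hI.bounded hw'
    have hysb := hI.bounded hys
    have h1 : (1 - t) • ys + t • w ∈ I.C := hI.convex_C hys.1 hw'.1 (by linarith) ht0.le (by ring)
    have h2 : (1 - t) • ys + t • w ∈ box d R :=
      convex_box d R hysb hwb (by linarith) ht0.le (by ring)
    refine ⟨⟨h1, hfin _ h2⟩, ?_⟩
    have h3 : ((1 - t) • (ys, φ ys) + t • (w, φ w) : E d × ℝ) ∈
        {p : E d × ℝ | I.f p.1 ≤ ((p.2 : ℝ) : WithTop ℝ)} := by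
      apply hI.convex_f _ _ (by linarith) ht0.le (by ring)
      · show I.f ys ≤ _
        rw [hcoe _ hysb]
      · show I.f w ≤ _
        rw [hcoe _ hwb]
    have h4 : I.f ((1 - t) • ys + t • w) ≤ (((1 - t) * φ ys + t * φ w : ℝ) : WithTop ℝ) := h3
    rw [hcoe _ h2, WithTop.coe_le_coe] at h4
    have h5 := hφlip w hwb ys hysb
    have h6 : supNorm (w - ys) ≤ 2 * R := by
      apply supNorm_le (by linarith)
      intro i
      have e : (w - ys) i = w i - ys i := rfl
      rw [e]
      have := abs_sub (w i) (ys i)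
      have := hwb i
      have := hysb i
      linarith
    have h7 : M * supNorm (w - ys) ≤ M * (2 * R) := mul_le_mul_of_nonneg_left h6 hM.le
    have h8 : t * φ w ≤ t * (φ ys + M * (2 * R)) := mul_le_mul_of_nonneg_left (by linarith) ht0.le
    calc φ ((1 - t) • ys + t • w) ≤ (1 - t) * φ ys + t * φ w := h4
      _ ≤ (1 - t) * φ ys + t * (φ ys + M * (2 * R)) := by linarith
      _ = φ ys + 2 * M * R * t := by ring
      _ ≤ φ ys + η := by linarith
  refine ⟨hfin, fun y hy => (hmem y hy).1, hI.bounded, ?_⟩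
  intro y hy z hz
  obtain ⟨h1, h2⟩ := hmem y hy
  rw [hcoe _ (hI.bounded h1), hcoe _ (hI.bounded hz), ← WithTop.coe_add, WithTop.coe_le_coe]
  have : φ ys ≤ φ z := hmin hz
  linarith

/-! ### The upper bound -/

/-- binary coded net of unit vectors -/
theorem exists_code {d : ℕ} (hd : 1 ≤ d) : ∃ (w : ℕ) (code : E d → (Fin d × Fin w → Bool))
    (net : (Fin d × Fin w → Bool) → E d), (∀ j, ‖net j‖ = 1) ∧
      (∀ u : E d, ‖u‖ = 1 → ‖u - net (code u)‖ ≤ del d) ∧ (w : ℝ) ≤ 9 * (1 + Real.log d) := by
  classical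
  have hd' : (1 : ℝ) ≤ d := by exact_mod_cast hd
  set w : ℕ := 7 + 2 * Nat.clog 2 d with hw
  set P : ℝ := 2 ^ (w - 2) with hP
  have hP0 : 0 < P := by positivity
  have hPd : 32 * (d : ℝ) ^ 2 ≤ P := by
    have h1 : d ≤ 2 ^ Nat.clog 2 d := Nat.le_pow_clog (by norm_num) d
    have h2 : (d : ℝ) ≤ 2 ^ Nat.clog 2 d := by exact_mod_cast h1
    have h3 : (w - 2) = 5 + 2 * Nat.clog 2 d := by omega
    rw [hP, h3, pow_add, mul_comm 2 (Nat.clog 2 d), pow_mul]
    have h4 : (d : ℝ) ^ 2 ≤ (2 ^ Nat.clog 2 d) ^ 2 := pow_le_pow_left₀ (by linarith) h2 2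
    linarith
  have h4P : (2 : ℝ) ^ w = 4 * P := by
    have h : (2 : ℝ) ^ w = 2 ^ (w - 2) * 2 ^ 2 := by rw [← pow_add]; congr 1; omega
    rw [h, hP]; ring
  set q : E d → Fin d → ℕ := fun u i => ⌊(u i + 2) * P⌋₊ with hq
  set code : E d → (Fin d × Fin w → Bool) := fun u p => Nat.testBit (q u p.1) p.2 with hcode
  obtain ⟨a0, ha0⟩ : ∃ a : E d, ‖a‖ = 1 := by
    refine ⟨EuclideanSpace.single ⟨0, hd⟩ 1, ?_⟩
    simp
  set net : (Fin d × Fin w → Bool) → E d := fun κ =>
    if h : ∃ u : E d, ‖u‖ = 1 ∧ code u = κ then h.choose else a0 with hnet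
  refine ⟨w, code, net, ?_, ?_, ?_⟩
  · intro κ
    simp only [hnet]
    split_ifs with h
    · exact h.choose_spec.1
    · exact ha0
  · intro u hu
    have h : ∃ u' : E d, ‖u'‖ = 1 ∧ code u' = code u := ⟨u, hu, rfl⟩
    have hn : net (code u) = h.choose := by
      simp only [hnet]
      rw [dif_pos h]
    rw [hn]
    obtain ⟨hu', hc'⟩ := h.choose_spec
    set u' : E d := h.choose with hu'def
    have hco : ∀ v : E d, ‖v‖ = 1 → ∀ i, 0 ≤ (v i + 2) * P ∧ (v i + 2) * P < 2 ^ w := by
      intro v hv i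
      have h1 : |v i| ≤ 1 := by
        have := PiLp.norm_apply_le v i
        rw [hv] at this
        simpa using this
      have h2 := abs_le.1 h1
      constructor
      · apply mul_nonneg _ hP0.le; linarith
      · rw [h4P]; nlinarith
    have hql : ∀ v : E d, ‖v‖ = 1 → ∀ i, q v i < 2 ^ w := by
      intro v hv i
      simp only [hq]
      rw [Nat.floor_lt (hco v hv i).1]
      push_cast
      exact (hco v hv i).2
    have hqq : ∀ i, q u' i = q u i := by
      intro i
      apply Nat.eq_of_testBit_eq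
      intro l
      by_cases hl : l < w
      · exact congrFun hc' (i, ⟨l, hl⟩)
      · push Not at hl
        have hpow : 2 ^ w ≤ 2 ^ l := Nat.pow_le_pow_right (by norm_num) hl
        rw [Nat.testBit_lt_two_pow ((hql u' hu' i).trans_le hpow),
          Nat.testBit_lt_two_pow ((hql u hu i).trans_le hpow)]
    have hdl : 0 < del d / d := by have := del_pos hd; positivity
    have hbox : u - u' ∈ box d (del d / d) := by
      intro i
      have e : (u - u') i = u i - u' i := rfl
      rw [e]
      have h1 := hqq i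
      simp only [hq] at h1
      have h2 := Nat.floor_le (hco u hu i).1
      have h3 := Nat.lt_floor_add_one ((u i + 2) * P)
      have h4 := Nat.floor_le (hco u' hu' i).1
      have h5 := Nat.lt_floor_add_one ((u' i + 2) * P)
      rw [h1] at h4 h5
      have h6 : |u i - u' i| * P ≤ 1 := by
        rw [← abs_of_pos hP0, ← abs_mul, abs_le]
        constructor <;> nlinarith
      have h7 : del d / d = 1 / (32 * (d : ℝ) ^ 2) := by
        unfold del gam
        field_simp
        norm_num
      rw [h7, le_div_iff₀ (by positivity)]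
      have := mul_le_mul_of_nonneg_left hPd (abs_nonneg (u i - u' i))
      linarith
    have := box_norm hdl hd hbox
    rwa [mul_div_cancel₀ _ (by linarith : (d : ℝ) ≠ 0)] at this
  · have h1 : ((Nat.clog 2 d : ℕ) : ℝ) ≤ Real.log d / Real.log 2 + 1 := by
      rcases Nat.lt_or_ge 1 d with h | h
      · have h2 : 2 ^ (Nat.clog 2 d).pred < d := Nat.pow_pred_clog_lt_self (by norm_num) h
        have h3 : 0 < Nat.clog 2 d := Nat.clog_pos (by norm_num) h
        have h4 : ((Nat.clog 2 d).pred : ℝ) * Real.log 2 ≤ Real.log d := by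
          rw [← Real.log_pow]
          apply Real.log_le_log (by positivity)
          exact_mod_cast h2.le
        have h5 : ((Nat.clog 2 d).pred : ℝ) = (Nat.clog 2 d : ℝ) - 1 := by
          rw [Nat.pred_eq_sub_one, Nat.cast_sub h3]; simp
        rw [h5] at h4
        have h6 : 0 < Real.log 2 := Real.log_pos (by norm_num)
        rw [← sub_le_iff_le_add, le_div_iff₀ h6]
        exact h4
      · have : d = 1 := by omega
        subst this
        simp
    have h2 : (0.6931471803 : ℝ) < Real.log 2 := Real.log_two_gt_d9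
    have hl : 0 ≤ Real.log d := Real.log_nonneg hd'
    have h3 : Real.log d / Real.log 2 ≤ 2 * Real.log d := by
      rw [div_le_iff₀ (by linarith)]
      nlinarith
    rw [hw]
    push_cast
    linarith

theorem settled_main {d : ℕ} (hd : 1 ≤ d) {w : ℕ} (code : E d → (Fin d × Fin w → Bool))
    (net : (Fin d × Fin w → Bool) → E d)
    (hunit : ∀ j, ‖net j‖ = 1) (hcov : ∀ u : E d, ‖u‖ = 1 → ‖u - net (code u)‖ ≤ del d)
    {R ρ M ε : ℝ} (hR : 0 < R) (hρ : 0 < ρ) (hM : 0 < M) (hε : 0 < ε) (G : Chart d R ρ M)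
    {m : ℕ} (hm : 0 < m) (e : Fin m ≃ Option (Bool × Option (Fin d × Fin w))) {t : ℝ} (ht0 : 0 < t) (ht1 : t ≤ 1)
    (ht : 4 * M * R * t ≤ del d * ε) {T : ℕ} (hT : 0 < T)
    (hTvol : theta d ^ T * (d * R) ^ d < (t * ρ) ^ d)
    {I : Inst d} (hI : InClass R ρ M I) :
    Settled G (strat hm e ((0 : E d), ((d : ℝ) * R) • (LinearMap.id : E d →ₗ[ℝ] E d))
      (qq hR code ε) (updd R code net)) ε I (T * m) := by
  classical
  set s0 : E d × (E d →ₗ[ℝ] E d) := ((0 : E d), ((d : ℝ) * R) • (LinearMap.id : E d →ₗ[ℝ] E d))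
    with hs0
  have hdR : (0 : ℝ) < d * R := by
    have : (1 : ℝ) ≤ d := by exact_mod_cast hd
    positivity
  have hcons : ∀ I' : Inst d, transcript G (strat hm e s0 (qq hR code ε) (updd R code net)) I' (T * m)
      = transcript G (strat hm e s0 (qq hR code ε) (updd R code net)) I (T * m) →
      (∀ b ≤ T, trueState G s0 (qq hR code ε) (updd R code net) I' b
        = trueState G s0 (qq hR code ε) (updd R code net) I b) ∧
      (∀ b < T, ∀ i, answer G (qq hR code ε (trueState G s0 (qq hR code ε) (updd R code net) I b) i) I'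
        = answer G (qq hR code ε (trueState G s0 (qq hR code ε) (updd R code net) I b) i) I) := by
    intro I' h
    have h1 := consistent G hm e s0 (qq hR code ε) (updd R code net) h
    refine ⟨h1.1, fun b hb i => ?_⟩
    have := h1.2 b hb i
    rwa [h1.1 b hb.le] at this
  set S : ℕ → E d × (E d →ₗ[ℝ] E d) := trueState G s0 (qq hR code ε) (updd R code net) I with hS
  -- determinants
  have hdet0 : LinearMap.det s0.2 = (d * R) ^ d := by
    simp only [hs0]
    rw [LinearMap.det_smul, LinearMap.det_id, mul_one, finrank_euclideanSpace, Fintype.card_fin]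
  have hSsucc : ∀ b, S (b + 1) = updd R code net (S b) (fun i => answer G (qq hR code ε (S b) i) I) :=
    fun b => rfl
  have hdet : ∀ b, LinearMap.det (S b).2 ≠ 0 := by
    intro b
    induction b with
    | zero =>
      show LinearMap.det s0.2 ≠ 0
      rw [hdet0]; positivity
    | succ b ih =>
      rw [hSsucc]
      exact det_updd code net hunit hd _ _ ih
  -- good sets are never cut off, for every consistent instance
  have hinv : ∀ I' : Inst d, InClass R ρ M I' →
      transcript G (strat hm e s0 (qq hR code ε) (updd R code net)) I' (T * m)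
      = transcript G (strat hm e s0 (qq hR code ε) (updd R code net)) I (T * m) →
      ∀ Q : Set (E d), Good R (2 * M * R * t) I' Q → ∀ b ≤ T, Q ⊆ ell (S b) := by
    intro I' hI' hcon Q hQ b
    induction b with
    | zero =>
      intro _ y hy
      have hy' := box_norm hR hd (hQ.bdd (hQ.sub hy))
      refine ⟨((d : ℝ) * R)⁻¹ • y, ?_, ?_⟩
      · rw [norm_smul, norm_inv, Real.norm_eq_abs, abs_of_pos hdR, inv_mul_le_iff₀ hdR, mul_one]
        exact hy'
      · show y = (0 : E d) + (((d : ℝ) * R) • (LinearMap.id : E d →ₗ[ℝ] E d)) (((d : ℝ) * R)⁻¹ • y)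
        rw [LinearMap.smul_apply, LinearMap.id_apply, smul_smul, mul_inv_cancel₀ hdR.ne', one_smul,
          zero_add]
    | succ b ih =>
      intro hb
      have h1 := ih (by omega)
      have h2 := (hcons I' hcon).2 b (by omega)
      have h3 := cut_step hR code net ε G hcov hunit hd hε hI' (η := 2 * M * R * t)
        (by linarith) hQ (hdet b) h1
      rw [hSsucc]
      have h4 : (fun i => answer G (qq hR code ε (S b) i) I')
          = (fun i => answer G (qq hR code ε (S b) i) I) := funext h2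
      rw [h4] at h3
      exact h3
  -- existence of good sets
  have hgood : ∀ I' : Inst d, InClass R ρ M I' → I'.f 0 ≠ ⊤ → I'.feas.Nonempty →
      ∃ p : E d, Good R (2 * M * R * t) I' (cube p (t * ρ)) := by
    intro I' hI' h0 hne
    rcases hI'.lip with h | h
    · exact absurd (h 0 (zero_mem_box hR)) h0
    · exact exists_good hR hM hd hI' (fun x hx => (h x hx x hx).1)
        (fun x hx y hy => (h x hx y hy).2) hne ht0 ht1 le_rfl
  have hcube_ne : ∀ p : E d, (cube p (t * ρ)).Nonempty := by
    intro p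
    refine ⟨p, fun i => ?_⟩
    simp only [sub_self, abs_zero]
    positivity
  -- finiteness of `f 0` is revealed by the first query
  have hfirst : ∀ I' : Inst d, InClass R ρ M I' →
      (answer G (qq hR code ε (S 0) none) I' = true ↔ I'.f 0 = ⊤) := by
    intro I' hI'
    simp only [qq, answer, decide_eq_true_eq]
    rw [G.sub_value 0 (zero_mem_box hR) I' hI']
  by_cases htop : answer G (qq hR code ε (S 0) none) I = true
  · -- all consistent instances are infeasible
    right
    intro I' hI' hcon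
    have h1 := (hcons I' hcon).2 0 hT none
    rw [htop] at h1
    have h2 := (hfirst I' hI').1 h1
    rcases hI'.lip with h | h
    · rw [Set.eq_empty_iff_forall_notMem]
      intro y hy
      exact hy.2 (h y (hI'.bounded hy))
    · exact absurd h2 (h 0 (zero_mem_box hR) 0 (zero_mem_box hR)).1
  · have hfin0 : ∀ I' : Inst d, InClass R ρ M I' →
        transcript G (strat hm e s0 (qq hR code ε) (updd R code net)) I' (T * m)
        = transcript G (strat hm e s0 (qq hR code ε) (updd R code net)) I (T * m) → I'.f 0 ≠ ⊤ := by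
      intro I' hI' hcon h0
      have h1 := (hcons I' hcon).2 0 hT none
      rw [(hfirst I' hI').2 h0] at h1
      exact htop h1.symm
    by_cases hstop : ∃ b < T, dir R code (S b) (fun i => answer G (qq hR code ε (S b) i) I) = none
    · obtain ⟨b, hb, hdirb⟩ := hstop
      left
      refine ⟨(S b).1, ?_⟩
      intro I' hI' hcon
      have h2 := (hcons I' hcon).2 b hb
      have h4 : (fun i => answer G (qq hR code ε (S b) i) I)
          = (fun i => answer G (qq hR code ε (S b) i) I') := (funext h2).symm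
      rw [h4] at hdirb
      obtain ⟨hbox, hC, _⟩ := center_mem hR code ε G hI' hdirb
      have h0 := hfin0 I' hI' hcon
      have hfinbox : ∀ x ∈ box d R, I'.f x ≠ ⊤ := by
        rcases hI'.lip with h | h
        · exact absurd (h 0 (zero_mem_box hR)) h0
        · exact fun x hx => (h x hx x hx).1
      obtain ⟨p, hp⟩ := hgood I' hI' h0 ⟨(S b).1, hC, hfinbox _ hbox⟩
      have h5 := hinv I' hI' hcon _ hp b hb.le
      refine stop_step hR code ε G hI' (η := 2 * M * R * t) ?_ hε hp (hcube_ne p) h5 hdirb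
      have hdl : del d ≤ 1 := by
        have := gam_le hd; unfold del; linarith
      nlinarith
    · push Not at hstop
      right
      intro I' hI' hcon
      by_contra hne
      have hne' : I'.feas.Nonempty := Set.nonempty_iff_ne_empty.2 hne
      obtain ⟨p, hp⟩ := hgood I' hI' (hfin0 I' hI' hcon) hne'
      have h5 := hinv I' hI' hcon _ hp T le_rfl
      have h6 := cube_le_det (S T) p (by positivity) h5
      have h7 : ∀ b ≤ T, LinearMap.det (S b).2 = theta d ^ b * (d * R) ^ d := by
        intro b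
        induction b with
        | zero => intro _; show LinearMap.det s0.2 = _; rw [hdet0]; ring
        | succ b ih =>
          intro hb
          have h8 := ih (by omega)
          have h9 := hstop b (by omega)
          rw [hSsucc]
          unfold updd
          rcases hj : dir R code (S b) (fun i => answer G (qq hR code ε (S b) i) I) with _ | j
          · exact absurd hj h9
          · simp only
            rw [det_cut hd (S b) (hunit j), h8]
            ring
      rw [h7 T le_rfl, abs_of_nonneg (by have := theta_pos hd; positivity)] at h6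
      linarith

theorem icomp_le {d : ℕ} {R ρ M ε : ℝ} (G : Chart d R ρ M) (D : Strategy d R) (k : ℕ)
    (h : ∀ I : Inst d, InClass R ρ M I → Settled G D ε I k) : icomp G ε ≤ k := by
  unfold icomp
  refine (iInf_le _ D).trans ?_
  refine iSup₂_le fun I hI => ?_
  exact iInf₂_le k (h I hI)

theorem upper_bound : ∃ C : ℝ, 0 < C ∧ ∀ d : ℕ, 1 ≤ d → ∀ R ρ M ε : ℝ, 0 < R → 0 < ρ →
    0 < M → 0 < ε → ∀ G : Chart d R ρ M, ∃ k : ℕ, icomp G ε ≤ k ∧
      (k : ℝ) ≤ C * d ^ 3 * (1 + Real.log d) *
        (1 + Real.log d + max 0 (Real.log (M * R / ε)) + max 0 (Real.log (R / ρ))) := by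
  classical
  refine ⟨165 * 21, by norm_num, ?_⟩
  intro d hd R ρ M ε hR hρ hM hε G
  obtain ⟨w, code, net, hunit, hcov, hw⟩ := exists_code hd
  set m : ℕ := Fintype.card (Option (Bool × Option (Fin d × Fin w))) with hmdef
  have hmval : m = 2 * (d * w + 1) + 1 := by
    rw [hmdef]
    simp only [Fintype.card_option, Fintype.card_prod, Fintype.card_bool, Fintype.card_fin]
  have hm : 0 < m := by omega
  have e : Fin m ≃ Option (Bool × Option (Fin d × Fin w)) := (Fintype.equivFin _).symm
  have hd' : (1 : ℝ) ≤ d := by exact_mod_cast hd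
  have hθ0 := theta_pos hd
  have hθ1 := theta_lt_one hd
  have hδ := del_pos hd
  have hδ1 : del d ≤ 1 := by have := gam_le hd; unfold del; linarith
  have hδval : 4 / del d = 128 * d := by
    unfold del gam; field_simp; norm_num
  set lam : ℝ := -Real.log (theta d) with hlam
  have hlam1 : gam d / 2 ≤ lam := by
    have h1 := Real.log_le_sub_one_of_pos hθ0
    have h2 := theta_le hd
    rw [hlam]; linarith
  have hlam0 : 0 < lam := by have := gam_pos hd; linarith
  have hlogd : 0 ≤ Real.log d := Real.log_nonneg hd'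
  have hlogδ : Real.log (4 / del d) ≤ 5 + Real.log d := by
    rw [hδval, Real.log_mul (by norm_num) (by linarith)]
    have h1 : Real.log 128 = 7 * Real.log 2 := by
      rw [show (128 : ℝ) = 2 ^ 7 by norm_num, Real.log_pow]; norm_num
    have h2 := Real.log_two_lt_d9
    rw [h1]; linarith
  have hlogδ0 : 0 ≤ Real.log (4 / del d) := by
    apply Real.log_nonneg
    rw [le_div_iff₀ hδ]; linarith
  set La : ℝ := max 0 (Real.log (M * R / ε)) with hLa
  set Lb : ℝ := max 0 (Real.log (R / ρ)) with hLb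
  have hLa0 : 0 ≤ La := le_max_left _ _
  have hLb0 : 0 ≤ Lb := le_max_left _ _
  set t : ℝ := min 1 (del d * ε / (4 * M * R)) with ht
  have htpos : 0 < t := lt_min one_pos (by positivity)
  have ht1 : t ≤ 1 := min_le_left _ _
  have ht2 : 4 * M * R * t ≤ del d * ε := by
    have : t ≤ del d * ε / (4 * M * R) := min_le_right _ _
    rwa [le_div_iff₀ (by positivity), mul_comm] at this
  have hlogt : -Real.log t ≤ Real.log (4 / del d) + La := by
    rcases le_total 1 (del d * ε / (4 * M * R)) with h | h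
    · rw [ht, min_eq_left h, Real.log_one, neg_zero]; positivity
    · rw [ht, min_eq_right h, ← Real.log_inv]
      have e1 : (del d * ε / (4 * M * R))⁻¹ = (4 / del d) * (M * R / ε) := by
        field_simp
      rw [e1, Real.log_mul (by positivity) (by positivity)]
      have : Real.log (M * R / ε) ≤ La := le_max_right _ _
      linarith
  set X : ℝ := d * (Real.log d + Lb + Real.log (4 / del d) + La) with hX
  have hX0 : 0 ≤ X := by positivity
  set T : ℕ := ⌊X / lam⌋₊ + 1 with hT
  have hTlow : X / lam < T := by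
    rw [hT]; push_cast; exact Nat.lt_floor_add_one _
  have hThigh : (T : ℝ) ≤ X / lam + 1 := by
    rw [hT]; push_cast
    have := Nat.floor_le (show 0 ≤ X / lam by positivity)
    linarith
  have hXT : X < T * lam := by rwa [div_lt_iff₀ hlam0] at hTlow
  -- the volume inequality
  have hvol : theta d ^ T * (d * R) ^ d < (t * ρ) ^ d := by
    rw [← Real.log_lt_log_iff (by positivity) (by positivity),
      Real.log_mul (by positivity) (by positivity), Real.log_pow, Real.log_pow, Real.log_pow,
      Real.log_mul (by positivity) (by positivity), Real.log_mul (by positivity) (by positivity)]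
    have h1 : Real.log R - Real.log ρ ≤ Lb := by
      rw [← Real.log_div hR.ne' hρ.ne']
      exact le_max_right _ _
    have h2 : (d : ℝ) * (Real.log d + (Real.log R - Real.log ρ) + (- Real.log t)) ≤ X := by
      rw [hX]
      apply mul_le_mul_of_nonneg_left _ (by positivity)
      linarith
    have h3 : (T : ℝ) * Real.log (theta d) = -(T * lam) := by rw [hlam]; ring
    rw [h3]
    linarith
  refine ⟨T * m, ?_, ?_⟩
  · have := icomp_le (ε := ε) G _ (T * m)
      (fun I hI => settled_main hd code net hunit hcov hR hρ hM hε G hm e htpos ht1 ht2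
        (Nat.succ_pos _) hvol hI)
    exact this
  · set Y : ℝ := 1 + Real.log d + La + Lb with hY
    have hY1 : 1 ≤ Y := by linarith
    have hXle : X ≤ 5 * d * Y := by
      rw [hX]
      have h1 : Real.log d + Lb + Real.log (4 / del d) + La ≤ 5 * Y := by linarith
      calc (d : ℝ) * (Real.log d + Lb + Real.log (4 / del d) + La) ≤ d * (5 * Y) :=
            mul_le_mul_of_nonneg_left h1 (by linarith)
        _ = 5 * d * Y := by ring
    have hTle : (T : ℝ) ≤ 165 * d ^ 2 * Y := by
      have h1 : X / lam ≤ 32 * d * X := by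
        rw [div_le_iff₀ hlam0]
        have h2 : gam d / 2 = 1 / (32 * d) := by unfold gam; field_simp; norm_num
        have h3 : 1 ≤ 32 * d * lam := by
          rw [h2, div_le_iff₀ (by positivity)] at hlam1
          linarith
        nlinarith
      have h4 : 32 * d * X ≤ 160 * d ^ 2 * Y := by
        have := mul_le_mul_of_nonneg_left hXle (by positivity : (0 : ℝ) ≤ 32 * d)
        nlinarith
      have h5 : (1 : ℝ) ≤ d ^ 2 * Y := by
        have : (1 : ℝ) ≤ d ^ 2 := by nlinarith
        nlinarith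
      linarith
    have hmle : (m : ℝ) ≤ 21 * d * (1 + Real.log d) := by
      rw [hmval]
      push_cast
      have h1 : (d : ℝ) * w ≤ d * (9 * (1 + Real.log d)) :=
        mul_le_mul_of_nonneg_left hw (by linarith)
      have h2 : (1 : ℝ) ≤ d * (1 + Real.log d) := by nlinarith
      linarith
    push_cast
    calc (T : ℝ) * m ≤ (165 * d ^ 2 * Y) * (21 * d * (1 + Real.log d)) := by
          apply mul_le_mul hTle hmle (by positivity) (by positivity)
      _ = 165 * 21 * d ^ 3 * (1 + Real.log d) * Y := by ring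

/-! ### Complete charts exist -/

theorem exists_unit {d : ℕ} (hd : 1 ≤ d) : ∃ a : E d, ‖a‖ = 1 := by
  refine ⟨EuclideanSpace.single ⟨0, hd⟩ 1, ?_⟩
  simp

theorem exists_sep {d : ℕ} (hd : 1 ≤ d) {C : Set (E d)} (h1 : IsClosed C) (h2 : Convex ℝ C)
    {z : E d} (hz : z ∉ C) : ∃ a : E d, ‖a‖ = 1 ∧ ∀ y ∈ C, inner ℝ a y < inner ℝ a z := by
  rcases C.eq_empty_or_nonempty with rfl | ⟨y0, hy0⟩
  · obtain ⟨a, ha⟩ := exists_unit hd
    exact ⟨a, ha, fun y hy => absurd hy (notMem_empty y)⟩
  · obtain ⟨F, u, hF1, hF2⟩ := geometric_hahn_banach_closed_point h2 h1 hz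
    set b : E d := (InnerProductSpace.toDual ℝ (E d)).symm F with hb
    have hbF : ∀ y, inner ℝ b y = F y := fun y => InnerProductSpace.toDual_symm_apply
    have hb0 : b ≠ 0 := by
      intro h0
      have e1 := hbF y0
      have e2 := hbF z
      rw [h0, inner_zero_left] at e1 e2
      have := hF1 y0 hy0
      linarith
    have hpos : 0 < ‖b‖ := norm_pos_iff.2 hb0
    refine ⟨‖b‖⁻¹ • b, ?_, ?_⟩
    · rw [norm_smul, norm_inv, norm_norm, inv_mul_cancel₀ hpos.ne']
    · intro y hy
      rw [real_inner_smul_left, real_inner_smul_left, hbF, hbF]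
      have := (hF1 y hy).trans hF2
      exact mul_lt_mul_of_pos_left this (inv_pos.2 hpos)

theorem supNorm_sub_comm {d : ℕ} (x y : E d) : supNorm (x - y) = supNorm (y - x) := by
  apply le_antisymm
  · apply supNorm_le (by unfold supNorm; positivity)
    intro i
    have h := abs_apply_le_supNorm (y - x) i
    have e1 : (x - y) i = -((y - x) i) := by
      simp
    rw [e1, abs_neg]; exact h
  · apply supNorm_le (by unfold supNorm; positivity)
    intro i
    have h := abs_apply_le_supNorm (x - y) i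
    have e1 : (y - x) i = -((x - y) i) := by
      simp
    rw [e1, abs_neg]; exact h

theorem supNorm_triangle {d : ℕ} (x y z : E d) :
    supNorm (x - z) ≤ supNorm (x - y) + supNorm (y - z) := by
  apply supNorm_le (by unfold supNorm; positivity)
  intro i
  have e1 : (x - z) i = (x - y) i + (y - z) i := by simp
  rw [e1]
  exact (abs_add_le _ _).trans (add_le_add (abs_apply_le_supNorm _ i) (abs_apply_le_supNorm _ i))

theorem mem_box_iff {d : ℕ} {R : ℝ} (hR : 0 ≤ R) (z : E d) : z ∈ box d R ↔ supNorm z ≤ R :=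
  ⟨fun h => supNorm_le hR h, fun h i => (abs_apply_le_supNorm z i).trans h⟩

theorem supNorm_smul {d : ℕ} {s : ℝ} (hs : 0 ≤ s) (x : E d) : supNorm (s • x) = s * supNorm x := by
  unfold supNorm
  have : (fun i => (s • x) i : Fin d → ℝ) = s • (fun i => x i : Fin d → ℝ) := by
    ext i; simp
  rw [this, norm_smul, Real.norm_eq_abs, abs_of_nonneg hs]

theorem growth {d : ℕ} {R M : ℝ} (hR : 0 < R) (hM : 0 < M) {f : E d → WithTop ℝ}
    (hconv : Convex ℝ {p : E d × ℝ | f p.1 ≤ ((p.2 : ℝ) : WithTop ℝ)})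
    (hlip : ∀ x ∈ box d R, ∀ y ∈ box d R, f x ≠ ⊤ ∧ f x ≤ f y + ((M * supNorm (x - y) : ℝ) : WithTop ℝ))
    {z : E d} (hz : z ∈ box d R) {fz : ℝ} (hfz : f z = ((fz : ℝ) : WithTop ℝ)) {y : E d} {r : ℝ}
    (hy : f y ≤ ((r : ℝ) : WithTop ℝ)) : fz - 3 * M * ‖y - z‖ ≤ r := by
  have hsn := supNorm_le_norm (y - z)
  have hsn0 : 0 ≤ supNorm (y - z) := by unfold supNorm; positivity
  suffices h : fz - 3 * M * supNorm (y - z) ≤ r by nlinarith
  by_cases hyb : y ∈ box d R
  · have h1 := (hlip z hz y hyb).2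
    rw [hfz] at h1
    have h2 : ((fz : ℝ) : WithTop ℝ) ≤ ((r + M * supNorm (z - y) : ℝ) : WithTop ℝ) := by
      rw [WithTop.coe_add]
      exact h1.trans (add_le_add_left hy _)
    rw [WithTop.coe_le_coe, supNorm_sub_comm] at h2
    nlinarith
  · set lam : ℝ := supNorm y with hlam
    have hlamR : R < lam := by
      by_contra hcon
      push Not at hcon
      exact hyb ((mem_box_iff hR.le y).2 hcon)
    have hlam0 : 0 < lam := hR.trans hlamR
    set s : ℝ := R / lam with hs
    have hs0 : 0 < s := by positivity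
    have hs1 : s < 1 := by rw [hs, div_lt_one hlam0]; exact hlamR
    have hsl : s * lam = R := by rw [hs]; field_simp
    have hz'b : s • y ∈ box d R := by
      rw [mem_box_iff hR.le, supNorm_smul hs0.le, ← hlam, hsl]
    have h0b : (0 : E d) ∈ box d R := zero_mem_box hR
    obtain ⟨a, ha⟩ := WithTop.ne_top_iff_exists.1 (hlip _ hz'b _ hz'b).1
    obtain ⟨b, hb⟩ := WithTop.ne_top_iff_exists.1 (hlip _ h0b _ h0b).1
    -- convexity on the segment from 0 to y
    have h1 : ((1 - s) • ((0 : E d), b) + s • (y, r) : E d × ℝ) ∈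
        {p : E d × ℝ | f p.1 ≤ ((p.2 : ℝ) : WithTop ℝ)} := by
      apply hconv _ _ (by linarith) hs0.le (by ring)
      · show f 0 ≤ _
        rw [← hb]
      · exact hy
    have h2 : f ((1 - s) • (0 : E d) + s • y) ≤ (((1 - s) * b + s * r : ℝ) : WithTop ℝ) := h1
    rw [smul_zero, zero_add, ← ha, WithTop.coe_le_coe] at h2
    -- Lipschitz estimates
    have h3 := (hlip 0 h0b (s • y) hz'b).2
    rw [← ha, ← hb, ← WithTop.coe_add, WithTop.coe_le_coe, zero_sub] at h3
    have h3' : supNorm (-(s • y)) = R := by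
      have : supNorm (-(s • y)) = supNorm (s • y) := by
        have := supNorm_sub_comm (0 : E d) (s • y)
        simpa using this
      rw [this, supNorm_smul hs0.le, ← hlam, hsl]
    rw [h3'] at h3
    have h4 := (hlip z hz (s • y) hz'b).2
    rw [hfz, ← ha, ← WithTop.coe_add, WithTop.coe_le_coe] at h4
    have h5 : supNorm (z - s • y) ≤ supNorm (z - y) + supNorm (y - s • y) := supNorm_triangle _ _ _
    have h6 : supNorm (y - s • y) = lam - R := by
      have : y - s • y = (1 - s) • y := by rw [sub_smul, one_smul]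
      rw [this, supNorm_smul (by linarith), ← hlam]
      linarith
    have h7 : lam - R ≤ supNorm (y - z) := by
      have h8 := supNorm_triangle y z 0
      rw [sub_zero, sub_zero] at h8
      have h9 := (mem_box_iff hR.le z).1 hz
      linarith
    rw [supNorm_sub_comm z y] at h5
    -- combine: s * r ≥ a - (1 - s) b, b ≤ a + M R
    have h10 : s * (fz - 3 * M * supNorm (y - z)) ≤ s * r := by
      have h11 : a - (1 - s) * b ≤ s * r := by linarith
      have h12 : (1 - s) * b ≤ (1 - s) * (a + M * R) :=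
        mul_le_mul_of_nonneg_left h3 (by linarith)
      have h13 : s * a - (1 - s) * (M * R) ≤ s * r := by nlinarith
      have h14 : (1 - s) * R = s * (lam - R) := by rw [mul_sub, hsl]; ring
      have h15 : (1 - s) * (M * R) = s * (M * (lam - R)) := by
        calc (1 - s) * (M * R) = M * ((1 - s) * R) := by ring
          _ = M * (s * (lam - R)) := by rw [h14]
          _ = _ := by ring
      have h16 : M * (lam - R) ≤ M * supNorm (y - z) := mul_le_mul_of_nonneg_left h7 hM.le
      have h17 : M * supNorm (z - s • y) ≤ M * (2 * supNorm (y - z)) :=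
        mul_le_mul_of_nonneg_left (by linarith) hM.le
      have h18 : s * (fz - 3 * M * supNorm (y - z)) ≤ s * (a - M * (lam - R)) :=
        mul_le_mul_of_nonneg_left (by linarith) hs0.le
      linarith [mul_sub s a (M * (lam - R))]
    exact le_of_mul_le_mul_left h10 hs0

theorem exists_subgradient {d : ℕ} {R M : ℝ} (hR : 0 < R) (hM : 0 < M) {f : E d → WithTop ℝ}
    (hconv : Convex ℝ {p : E d × ℝ | f p.1 ≤ ((p.2 : ℝ) : WithTop ℝ)})
    (hlip : ∀ x ∈ box d R, ∀ y ∈ box d R, f x ≠ ⊤ ∧ f x ≤ f y + ((M * supNorm (x - y) : ℝ) : WithTop ℝ))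
    {z : E d} (hz : z ∈ box d R) :
    ∃ g : E d, ∀ y, f z + ((inner ℝ g (y - z) : ℝ) : WithTop ℝ) ≤ f y := by
  obtain ⟨fz, hfz'⟩ := WithTop.ne_top_iff_exists.1 (hlip z hz z hz).1
  have hfz : f z = ((fz : ℝ) : WithTop ℝ) := hfz'.symm
  set s : Set (E d × ℝ) := {p | p.2 < fz - 3 * M * ‖p.1 - z‖} with hs
  have hsopen : IsOpen s := isOpen_lt (by fun_prop) (by fun_prop)
  have hsconv : Convex ℝ s := by
    intro p hp q hq a b ha hb hab
    simp only [hs, mem_ofPred_eq] at hp hq ⊢
    have e1 : (a • p + b • q).1 - z = a • (p.1 - z) + b • (q.1 - z) := by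
      have : z = a • z + b • z := by rw [← add_smul, hab, one_smul]
      conv_lhs => rw [this]
      simp only [Prod.fst_add, Prod.smul_fst, smul_sub]
      abel
    have e2 : (a • p + b • q).2 = a * p.2 + b * q.2 := by simp
    rw [e1, e2]
    have h1 : ‖a • (p.1 - z) + b • (q.1 - z)‖ ≤ a * ‖p.1 - z‖ + b * ‖q.1 - z‖ := by
      refine (norm_add_le _ _).trans ?_
      rw [norm_smul, norm_smul, Real.norm_eq_abs, Real.norm_eq_abs, abs_of_nonneg ha,
        abs_of_nonneg hb]
    have h2 : a * fz + b * fz = fz := by rw [← add_mul, hab, one_mul]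
    have h3 : 3 * M * ‖a • (p.1 - z) + b • (q.1 - z)‖ ≤ 3 * M * (a * ‖p.1 - z‖ + b * ‖q.1 - z‖) :=
      mul_le_mul_of_nonneg_left h1 (by positivity)
    rcases ha.lt_or_eq with ha' | ha'
    · have h4 : a * p.2 < a * (fz - 3 * M * ‖p.1 - z‖) := mul_lt_mul_of_pos_left hp ha'
      have h5 : b * q.2 ≤ b * (fz - 3 * M * ‖q.1 - z‖) := mul_le_mul_of_nonneg_left hq.le hb
      nlinarith
    · have hb1 : b = 1 := by rw [← ha'] at hab; linarith
      subst hb1
      rw [← ha'] at h2 h3 ⊢
      nlinarith
  have hdisj : Disjoint s {p : E d × ℝ | f p.1 ≤ ((p.2 : ℝ) : WithTop ℝ)} := by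
    rw [Set.disjoint_left]
    intro p hp1 hp2
    have := growth hR hM hconv hlip hz hfz (y := p.1) (r := p.2) hp2
    simp only [hs, mem_ofPred_eq] at hp1
    linarith
  obtain ⟨F, u, hF1, hF2⟩ := geometric_hahn_banach_open hsconv hsopen hconv hdisj
  set kap' : ℝ := F (0, 1) with hkap
  have hFdec : ∀ (y : E d) (r : ℝ), F (y, r) = F (y, 0) + r * kap' := by
    intro y r
    have : ((y, r) : E d × ℝ) = (y, 0) + r • ((0 : E d), (1 : ℝ)) := by simp
    rw [this, map_add, map_smul, smul_eq_mul]
  have hzt : u ≤ F (z, fz) := hF2 (z, fz) (by show f z ≤ _; rw [hfz])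
  have hzs : ∀ η : ℝ, 0 < η → F (z, fz - η) < u := by
    intro η hη
    apply hF1
    simp only [hs, mem_ofPred_eq, sub_self, norm_zero, mul_zero, sub_zero]
    linarith
  have hkpos : 0 < kap' := by
    have h1 := hzs 1 one_pos
    rw [hFdec] at h1 hzt
    nlinarith
  have hu : F (z, fz) ≤ u := by
    by_contra hcon
    push Not at hcon
    have h1 := hzs ((F (z, fz) - u) / kap') (div_pos (by linarith) hkpos)
    rw [hFdec] at h1
    rw [hFdec z fz] at h1
    have h2 : (fz - (F (z, 0) + fz * kap' - u) / kap') * kap'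
        = fz * kap' - (F (z, 0) + fz * kap' - u) := by
      field_simp
    rw [h2] at h1
    linarith
  -- the linear part
  set F0 : E d →L[ℝ] ℝ := F.comp (ContinuousLinearMap.inl ℝ (E d) ℝ) with hF0
  have hF0a : ∀ y, F0 y = F (y, 0) := fun y => by simp [hF0]
  set b : E d := (InnerProductSpace.toDual ℝ (E d)).symm F0 with hb
  have hbF : ∀ y, inner ℝ b y = F (y, 0) := fun y => by
    rw [← hF0a]; exact InnerProductSpace.toDual_symm_apply
  refine ⟨-(kap'⁻¹ • b), ?_⟩
  intro y
  rcases eq_or_ne (f y) ⊤ with hy | hy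
  · rw [hy]; exact le_top
  · obtain ⟨fy, hfy⟩ := WithTop.ne_top_iff_exists.1 hy
    have h1 : u ≤ F (y, fy) := hF2 (y, fy) (by show f y ≤ _; rw [← hfy])
    rw [hfz, ← hfy, ← WithTop.coe_add, WithTop.coe_le_coe, inner_neg_left, real_inner_smul_left,
      inner_sub_right, hbF, hbF]
    have h2 : F (z, 0) + fz * kap' ≤ F (y, 0) + fy * kap' := by
      rw [← hFdec, ← hFdec]; exact hu.trans h1
    have h3 : kap' * (fz + -(kap'⁻¹ * (F (y, 0) - F (z, 0)))) ≤ kap' * fy := by
      have : kap' * (fz + -(kap'⁻¹ * (F (y, 0) - F (z, 0))))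
          = kap' * fz - (F (y, 0) - F (z, 0)) := by field_simp; ring
      rw [this]; linarith
    exact le_of_mul_le_mul_left h3 hkpos

theorem exists_dom_sep {d : ℕ} (hd : 1 ≤ d) {R : ℝ} (hR : 0 < R) {f : E d → WithTop ℝ}
    (hconv : Convex ℝ {p : E d × ℝ | f p.1 ≤ ((p.2 : ℝ) : WithTop ℝ)})
    (htop : ∀ x ∈ box d R, f x = ⊤) {z : E d} (hz : z ∈ box d R) :
    ∃ g : E d, g ≠ 0 ∧ ∀ y, f y ≠ ⊤ → inner ℝ g y ≤ inner ℝ g z := by
  have hdom : Convex ℝ {y : E d | f y ≠ ⊤} := by
    intro x hx y hy a b ha hb hab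
    obtain ⟨fx, hfx⟩ := WithTop.ne_top_iff_exists.1 hx
    obtain ⟨fy, hfy⟩ := WithTop.ne_top_iff_exists.1 hy
    have h1 : (a • (x, fx) + b • (y, fy) : E d × ℝ) ∈
        {p : E d × ℝ | f p.1 ≤ ((p.2 : ℝ) : WithTop ℝ)} := by
      apply hconv _ _ ha hb hab
      · show f x ≤ _
        rw [← hfx]
      · show f y ≤ _
        rw [← hfy]
    have h2 : f (a • x + b • y) ≤ ((a * fx + b * fy : ℝ) : WithTop ℝ) := h1
    show f (a • x + b • y) ≠ ⊤
    exact ne_top_of_le_ne_top (WithTop.coe_ne_top) h2
  rcases ({y : E d | f y ≠ ⊤}).eq_empty_or_nonempty with h0 | ⟨y0, hy0⟩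
  · obtain ⟨a, ha⟩ := exists_unit hd
    refine ⟨a, fun h => by rw [h, norm_zero] at ha; exact zero_ne_one ha, ?_⟩
    intro y hy
    have : y ∈ ({y : E d | f y ≠ ⊤}) := hy
    rw [h0] at this
    exact absurd this (notMem_empty y)
  · set s : Set (E d) := {x | ‖x‖ < R} with hs
    have hsopen : IsOpen s := isOpen_lt (by fun_prop) (by fun_prop)
    -- use the open box
    set U : Set (E d) := {x | ∀ i, |x i| < R} with hU
    have hUopen : IsOpen U := by
      have : U = ⋂ i : Fin d, {x : E d | |x i| < R} := by ext x; simp [hU]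
      rw [this]
      apply isOpen_iInter_of_finite
      intro i
      exact isOpen_lt (continuous_abs.comp (by fun_prop)) continuous_const
    have hUconv : Convex ℝ U := by
      intro x hx y hy a b ha hb hab i
      have h1 := hx i
      have h2 := hy i
      have e : (a • x + b • y) i = a * x i + b * y i := by simp
      rw [e]
      rcases ha.lt_or_eq with ha' | ha'
      · calc |a * x i + b * y i| ≤ |a * x i| + |b * y i| := abs_add_le _ _
          _ = a * |x i| + b * |y i| := by rw [abs_mul, abs_mul, abs_of_nonneg ha, abs_of_nonneg hb]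
          _ < a * R + b * R := by
            have h3 : a * |x i| < a * R := mul_lt_mul_of_pos_left h1 ha'
            have h4 : b * |y i| ≤ b * R := mul_le_mul_of_nonneg_left h2.le hb
            linarith
          _ = R := by rw [← add_mul, hab, one_mul]
      · have hb1 : b = 1 := by rw [← ha'] at hab; linarith
        rw [← ha', hb1]; simpa using h2
    have hUbox : U ⊆ box d R := fun x hx i => (hx i).le
    have hdisj : Disjoint U {y : E d | f y ≠ ⊤} := by
      rw [Set.disjoint_left]
      intro x hx hx2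
      exact hx2 (htop x (hUbox hx))
    obtain ⟨F, u, hF1, hF2⟩ := geometric_hahn_banach_open hUconv hUopen hdom hdisj
    have hzu : F z ≤ u := by
      by_contra hcon
      push Not at hcon
      have hcont : Filter.Tendsto (fun r : ℝ => F (r • z)) (nhdsWithin 1 (Iio 1)) (nhds (F z)) := by
        have : Filter.Tendsto (fun r : ℝ => F (r • z)) (nhds 1) (nhds (F ((1 : ℝ) • z))) :=
          Continuous.tendsto (by fun_prop) 1
        rw [one_smul] at this
        exact this.mono_left nhdsWithin_le_nhds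
      have h1 := hcont.eventually (lt_mem_nhds hcon)
      have h2 : ∀ᶠ r : ℝ in nhdsWithin 1 (Iio 1), r ∈ Ioo (0 : ℝ) 1 :=
        Ioo_mem_nhdsLT one_pos
      obtain ⟨r, hr1, hr2⟩ := (h1.and h2).exists
      have hrU : r • z ∈ U := by
        intro i
        have e : (r • z) i = r * z i := by simp
        rw [e, abs_mul, abs_of_pos hr2.1]
        have := hz i
        calc r * |z i| ≤ r * R := mul_le_mul_of_nonneg_left this hr2.1.le
          _ < 1 * R := mul_lt_mul_of_pos_right hr2.2 hR
          _ = R := one_mul R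
      have := hF1 _ hrU
      linarith
    set b : E d := (InnerProductSpace.toDual ℝ (E d)).symm F with hb
    have hbF : ∀ y, inner ℝ b y = F y := fun y => InnerProductSpace.toDual_symm_apply
    refine ⟨-b, ?_, ?_⟩
    · intro h0
      have hb0 : b = 0 := neg_eq_zero.1 h0
      have e1 := hbF y0
      have e2 := hbF 0
      rw [hb0, inner_zero_left] at e1
      have h3 := hF2 y0 hy0
      have h4 := hF1 0 (fun i => by simp [hR])
      rw [map_zero] at h4
      linarith
    · intro y hy
      rw [inner_neg_left, inner_neg_left, hbF, hbF]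
      have := hF2 y hy
      linarith

/-- Complete first-order charts exist. -/
theorem chart_nonempty {d : ℕ} (hd : 1 ≤ d) {R ρ M : ℝ} (hR : 0 < R) (hM : 0 < M) :
    Nonempty (Chart d R ρ M) := by
  classical
  refine ⟨{
    sep := fun z C => if z ∈ C then 0 else
      if h : ∃ a : E d, ‖a‖ = 1 ∧ ∀ y ∈ C, inner ℝ a y < inner ℝ a z then h.choose else 0
    sub := fun z f => (f z, if h : ∃ g : E d, (f z ≠ ⊤ → ∀ y, f z + ((inner ℝ g (y - z) : ℝ) : WithTop ℝ) ≤ f y) ∧ (f z = ⊤ → g ≠ 0 ∧ ∀ y, f y ≠ ⊤ → inner ℝ g y ≤ inner ℝ g z) then h.choose else 0)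
    sep_of_mem := ?_
    sep_of_notMem := ?_
    sub_value := ?_
    sub_of_finite := ?_
    sub_of_top := ?_ }⟩
  · intro z _ I _ hz
    simp only [hz, if_true]
  · intro z _ I hI hz
    have h := exists_sep hd hI.closed_C hI.convex_C hz
    simp only [hz, if_false, dif_pos h]
    exact h.choose_spec
  · intro z _ I _
    rfl
  all_goals
    intro z hz I hI hfz
    have h : ∃ g : E d, (I.f z ≠ ⊤ → ∀ y, I.f z + ((inner ℝ g (y - z) : ℝ) : WithTop ℝ) ≤ I.f y) ∧
        (I.f z = ⊤ → g ≠ 0 ∧ ∀ y, I.f y ≠ ⊤ → inner ℝ g y ≤ inner ℝ g z) := by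
      rcases hI.lip with hl | hl
      · obtain ⟨g, hg⟩ := exists_dom_sep hd hR hI.convex_f hl hz
        exact ⟨g, fun h0 => absurd (hl z hz) h0, fun _ => hg⟩
      · obtain ⟨g, hg⟩ := exists_subgradient hR hM hI.convex_f hl hz
        exact ⟨g, fun _ => hg, fun h0 => absurd h0 (hl z hz z hz).1⟩
    simp only [dif_pos h]
  · exact h.choose_spec.1 hfz
  · exact h.choose_spec.2 hfz

/-- **Theorem.** (1) For every complete first-order chart, in every dimension `d`, the
information complexity under the general binary oracle is at most an absolute constant times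
`d ^ 3 (1 + log d) (1 + log d + log⁺ (M R / ε) + log⁺ (R / ρ))`.
(2) Hence for every `c > 0` there is `A` such that `icomp < c d ^ 2 log (M R / (ρ ε)) ^ 2` for every
complete first-order chart as soon as `ρ ≤ R ≤ 1`, `ε ≤ M R` and
`log (M R / (ρ ε)) ≥ A d (1 + log d)`. (3) Complete charts exist. -/
theorem result :
    (∃ C : ℝ, 0 < C ∧ ∀ d : ℕ, 1 ≤ d → ∀ R ρ M ε : ℝ, 0 < R → 0 < ρ → 0 < M → 0 < ε →
      ∀ G : Chart d R ρ M, ∃ k : ℕ, icomp G ε ≤ k ∧
        (k : ℝ) ≤ C * d ^ 3 * (1 + Real.log d) *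
          (1 + Real.log d + max 0 (Real.log (M * R / ε)) + max 0 (Real.log (R / ρ)))) ∧
    (∀ c : ℝ, 0 < c → ∃ A : ℝ, 1 ≤ A ∧ ∀ d : ℕ, 1 ≤ d → ∀ R ρ M ε : ℝ,
      0 < ρ → ρ ≤ R → R ≤ 1 → 0 < M → 0 < ε → ε ≤ M * R →
      A * (d * (1 + Real.log d)) ≤ Real.log (M * R / (ρ * ε)) →
      ∀ G : Chart d R ρ M, ∃ k : ℕ, icomp G ε ≤ k ∧
        (k : ℝ) < c * d ^ 2 * Real.log (M * R / (ρ * ε)) ^ 2) ∧
    (∀ d : ℕ, 1 ≤ d → ∀ R ρ M : ℝ, 0 < R → 0 < ρ → 0 < M → Nonempty (Chart d R ρ M)) := by
  refine ⟨upper_bound, ?_, fun d hd R ρ M hR _ hM => chart_nonempty hd hR hM⟩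
  obtain ⟨C, hC, hub⟩ := upper_bound
  intro c hc
  refine ⟨2 * C / c + 1, by have : 0 ≤ 2 * C / c := by positivity
                            linarith, ?_⟩
  intro d hd R ρ M ε hρ hρR hR1 hM hε hεMR hbig G
  have hR : 0 < R := hρ.trans_le hρR
  have hd' : (1 : ℝ) ≤ d := by exact_mod_cast hd
  have hlogd : 0 ≤ Real.log d := Real.log_nonneg hd'
  obtain ⟨k, hk1, hk2⟩ := hub d hd R ρ M ε hR hρ hM hε G
  refine ⟨k, hk1, lt_of_le_of_lt hk2 ?_⟩
  set L : ℝ := Real.log (M * R / (ρ * ε)) with hL
  set N : ℝ := d * (1 + Real.log d) with hN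
  have hN1 : 1 ≤ N := by rw [hN]; nlinarith
  have hA : 0 < 2 * C / c := by positivity
  have hLN : N ≤ L := by nlinarith
  have hLpos : 0 < L := by linarith
  have hLsum : max 0 (Real.log (M * R / ε)) + max 0 (Real.log (R / ρ)) ≤ L := by
    have h1 : 0 ≤ Real.log (M * R / ε) := by
      apply Real.log_nonneg
      rw [le_div_iff₀ hε]; linarith
    have h2 : 0 ≤ Real.log (R / ρ) := by
      apply Real.log_nonneg
      rw [le_div_iff₀ hρ]; linarith
    rw [max_eq_right h1, max_eq_right h2]
    have h3 : Real.log (R / ρ) ≤ Real.log (1 / ρ) := by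
      apply Real.log_le_log (by positivity)
      gcongr
    have h4 : L = Real.log (M * R / ε) + Real.log (1 / ρ) := by
      rw [hL, ← Real.log_mul (by positivity) (by positivity)]
      congr 1
      field_simp
    linarith
  have h1 : 1 + Real.log d + max 0 (Real.log (M * R / ε)) + max 0 (Real.log (R / ρ)) ≤ 2 * L := by
    have : 1 + Real.log d ≤ N := by rw [hN]; nlinarith
    linarith
  have h2 : C * d ^ 3 * (1 + Real.log d) *
      (1 + Real.log d + max 0 (Real.log (M * R / ε)) + max 0 (Real.log (R / ρ)))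
      ≤ C * d ^ 3 * (1 + Real.log d) * (2 * L) :=
    mul_le_mul_of_nonneg_left h1 (by positivity)
  refine lt_of_le_of_lt h2 ?_
  have h3 : C * d ^ 3 * (1 + Real.log d) * (2 * L) = d ^ 2 * L * (2 * C * N) := by
    rw [hN]; ring
  rw [h3]
  have h4 : 2 * C * N < c * L := by
    have h5 : (2 * C / c) * N < L := by nlinarith
    have h6 : c * ((2 * C / c) * N) < c * L := mul_lt_mul_of_pos_left h5 hc
    have h7 : c * ((2 * C / c) * N) = 2 * C * N := by field_simp
    linarith
  have h8 : 0 < (d : ℝ) ^ 2 * L := by positivity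
  calc (d : ℝ) ^ 2 * L * (2 * C * N) < d ^ 2 * L * (c * L) := mul_lt_mul_of_pos_left h4 h8
    _ = c * d ^ 2 * L ^ 2 := by ring

end Pool.Agent.Results.MP_a8335c_lc.BinaryOracle
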